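import Mathlib
import Pool.Agent.R494.CG7

/-! Patterns of primes from coloured classes of shifts. -/

set_option autoImplicit false

namespace Pool.Agent.N790.FS

open Finset Filter
open Pool.Agent.R494.BGen

theorem pat_mono {q : ℕ} {r : ℤ} {X Y : Finset ℤ} (h : X ⊆ Y) (hY : Pat q r Y) : Pat q r X := by
  refine Set.Infinite.mono ?_ hY
  intro n hn x hx
  exact hn x (h hx)

/-- patterns in classes of shifts -/
theorem hit (T K M : ℕ) (hQ : ∀ (a b : Fin T → Fin K → ℤ), (∀ g i, 0 < a g i) →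
    Function.Injective (fun x : Fin T × Fin K => (a x.1 x.2, b x.1 x.2)) →
    (∀ p : ℕ, p.Prime → ∃ n : ℤ, ∀ g i, ¬ ((p : ℤ) ∣ a g i * n + b g i)) →
    ∃ (S : Finset (Fin T)) (c : Fin T → Fin K), M + 1 ≤ S.card ∧
      {n : ℕ | ∀ g ∈ S, 0 < a g (c g) * (n : ℤ) + b g (c g) ∧
        Prime (a g (c g) * (n : ℤ) + b g (c g))}.Infinite)
    (q : ℕ) (r : ℤ) (hq1 : 1 ≤ q) (hqr : IsCoprime r (q : ℤ)) (x : Fin T → Fin K → ℤ)
    (hxinj : Function.Injective (fun y : Fin T × Fin K => x y.1 y.2))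
    (hx : ∀ p : ℕ, p.Prime → p ≤ T * K → ¬ (p : ℤ) ∣ q → ∃ c : ℤ, ∀ g i, ¬ (p : ℤ) ∣ x g i - c) :
    ∃ (S : Finset (Fin T)) (c : Fin T → Fin K), M + 1 ≤ S.card ∧
      Pat q r (S.image (fun g => x g (c g))) := by
  classical
  have hq0 : (0 : ℤ) < q := by exact_mod_cast hq1
  obtain ⟨S, c, hS, hinf⟩ := hQ (fun _ _ => (q : ℤ)) (fun g i => r + q * x g i) (fun _ _ => hq0)
    (by
      intro y y' hyy
      simp only [Prod.mk.injEq, true_and, add_right_inj] at hyy
      exact hxinj (mul_left_cancel₀ hq0.ne' hyy))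
    (by
      intro p hp
      have hpp := Nat.prime_iff_prime_int.1 hp
      by_cases hpq : (p : ℤ) ∣ q
      · refine ⟨0, fun g i hd => ?_⟩
        have h1 : (p : ℤ) ∣ r := by
          have h2 : (p : ℤ) ∣ (q : ℤ) * x g i := Dvd.dvd.mul_right hpq _
          exact (dvd_add_left h2).1 (by simpa using hd)
        exact hpp.not_isUnit (hqr.isUnit_of_dvd' h1 hpq)
      · have hcop : IsCoprime (q : ℤ) (p : ℤ) := by
          rw [isCoprime_comm]
          exact (Prime.coprime_iff_not_dvd hpp).2 hpq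
        obtain ⟨u, w, huw⟩ := hcop
        obtain ⟨c, hc⟩ : ∃ c : ℤ, ∀ g i, ¬ (p : ℤ) ∣ x g i - c := by
          rcases Nat.lt_or_ge (T * K) p with h | h
          · obtain ⟨n, hn⟩ := exists_shift_int hp h x
            refine ⟨-n, fun g i hd => hn g i ?_⟩
            have : x g i - -n = n + x g i := by ring
            rwa [this] at hd
          · exact hx p hp h hpq
        refine ⟨u * (- q * c - r), fun g i hd => hc g i ?_⟩
        have e1 : (q : ℤ) * (u * (- q * c - r)) + (r + q * x g i) =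
            q * (x g i - c) + (-(w * (- q * c - r))) * p := by
          linear_combination (-q * c - r) * huw
        rw [e1] at hd
        have h2 : (p : ℤ) ∣ q * (x g i - c) := (dvd_add_left (Dvd.intro_left _ rfl)).1 hd
        exact (hpp.dvd_or_dvd h2).resolve_left hpq)
  refine ⟨S, c, hS, hinf.mono ?_⟩
  intro n hn y hy
  obtain ⟨g, hg, rfl⟩ := mem_image.1 hy
  exact hn g hg

end Pool.Agent.N790.FS
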