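import Mathlib
import Pool.Agent.R494.BGen5

/-! Limits along an ultrafilter of the patterns of primes with shifts near multiples of factorials. -/

set_option autoImplicit false

namespace Pool.Agent.N790.FS

open Finset Filter

/-- the ultrafilter -/
noncomputable def U : Ultrafilter ℕ := Filter.hyperfilter ℕ

/-- the sequence of the factorials -/
def fc (i : ℕ) : ℤ := (Nat.factorial i : ℤ)

theorem ev_ge (n : ℕ) : ∀ᶠ i in (U : Filter ℕ), n ≤ i :=
  Nat.hyperfilter_le_atTop (Filter.eventually_ge_atTop n)

theorem fc_dvd {p i : ℕ} (hp : 0 < p) (h : p ≤ i) : (p : ℤ) ∣ fc i := by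
  unfold fc
  exact_mod_cast Nat.dvd_factorial hp h

theorem fc_gap {i j : ℕ} (h : i < j) : (i : ℤ) ≤ fc j - fc i := by
  unfold fc
  have h1 : Nat.factorial (i + 1) ≤ Nat.factorial j := Nat.factorial_le h
  rw [Nat.factorial_succ] at h1
  have h2 : 1 ≤ Nat.factorial i := Nat.factorial_pos i
  have h3 : ((i + 1) * Nat.factorial i : ℤ) ≤ Nat.factorial j := by exact_mod_cast h1
  have h4 : (1 : ℤ) ≤ Nat.factorial i := by exact_mod_cast h2
  nlinarith

/-- the point with the index `x.1` and the label `x.2` -/
def pt (x : ℕ × (ℤ × ℤ)) : ℤ := x.2.1 * fc x.1 + x.2.2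

/-- the limit of the property `G` -/
def L (G : Finset ℤ → Prop) : List (ℤ × ℤ) → Finset ℤ → Prop
  | [], F => G F
  | a :: φ, F => ∀ᶠ j in (U : Filter ℕ), L G φ (insert (pt (j, a)) F)

theorem finite_lists (Λ : Finset (ℤ × ℤ)) (N : ℕ) :
    {φ : List (ℤ × ℤ) | φ.length ≤ N ∧ ∀ a ∈ φ, a ∈ Λ}.Finite := by
  have h1 : {l : List Λ | l.length ≤ N}.Finite := List.finite_length_le Λ N
  refine (h1.image (fun l => l.map Subtype.val)).subset ?_
  rintro φ ⟨hφ, hφ2⟩
  refine ⟨φ.attach.map (fun a => (⟨a.1, hφ2 a.1 a.2⟩ : Λ)), ?_, ?_⟩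
  · simpa using hφ
  · simp only [List.map_map]
    have : (Subtype.val ∘ fun a : {x // x ∈ φ} => (⟨a.1, hφ2 a.1 a.2⟩ : Λ)) = Subtype.val := by
      funext a; rfl
    rw [this]
    exact List.attach_map_subtype_val φ

/-- **realisation** -/
theorem real (G : Finset ℤ → Prop) (Λ : Finset (ℤ × ℤ)) : ∀ (N : ℕ) (A : Finset (Finset ℤ)) (N₀ : ℕ),
    ∃ J : Finset ℕ, J.card = N ∧ (∀ j ∈ J, N₀ ≤ j) ∧ ∀ F ∈ A, ∀ I : List (ℕ × (ℤ × ℤ)),
      I.Pairwise (fun x y => x.1 < y.1) → (∀ x ∈ I, x.1 ∈ J ∧ x.2 ∈ Λ) →
      (G (F ∪ (I.map pt).toFinset) ↔ L G (I.map Prod.snd) F) := by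
  classical
  intro N
  induction N with
  | zero =>
    intro A N₀
    refine ⟨∅, rfl, by simp, fun F _ I _ hI => ?_⟩
    have : I = [] := by
      rw [List.eq_nil_iff_forall_not_mem]
      intro x hx
      exact absurd (hI x hx).1 (Finset.notMem_empty _)
    subst this
    simp [L]
  | succ N ih =>
    intro A N₀
    have hfin := finite_lists Λ N
    have hev : ∀ᶠ j in (U : Filter ℕ), N₀ ≤ j ∧ ∀ F ∈ A, ∀ a ∈ Λ,
        ∀ φ ∈ {φ : List (ℤ × ℤ) | φ.length ≤ N ∧ ∀ a ∈ φ, a ∈ Λ},
          (L G φ (insert (pt (j, a)) F) ↔ L G (a :: φ) F) := by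
      refine (ev_ge N₀).and ?_
      rw [Filter.eventually_all_finset]
      intro F _
      rw [Filter.eventually_all_finset]
      intro a _
      rw [Filter.eventually_all_finite hfin]
      intro φ _
      by_cases h : L G (a :: φ) F
      · have h1 := h
        unfold L at h1
        filter_upwards [h1] with j hj
        exact ⟨fun _ => h, fun _ => hj⟩
      · have h1 := h
        unfold L at h1
        rw [← Ultrafilter.eventually_not] at h1
        filter_upwards [h1] with j hj
        exact ⟨fun h2 => absurd h2 hj, fun h2 => absurd h2 h⟩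
    obtain ⟨j, hj0, hj⟩ := hev.exists
    obtain ⟨J, hJc, hJ0, hJ⟩ := ih (A ∪ A.biUnion (fun F => Λ.image (fun a => insert (pt (j, a)) F))) (j + 1)
    have hjJ : j ∉ J := fun h => by have := hJ0 j h; omega
    refine ⟨insert j J, by rw [card_insert_of_notMem hjJ, hJc], ?_, ?_⟩
    · intro i hi
      rcases mem_insert.1 hi with rfl | hi
      · exact hj0
      · have := hJ0 i hi; omega
    · intro F hF I hI hI2
      cases I with
      | nil => simp [L]
      | cons x I =>
        rw [List.pairwise_cons] at hI
        obtain ⟨hx, hI'⟩ := hI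
        have hx1 := hI2 x (List.mem_cons_self)
        have htail : ∀ y ∈ I, y.1 ∈ J ∧ y.2 ∈ Λ := by
          intro y hy
          obtain ⟨h1, h2⟩ := hI2 y (List.mem_cons_of_mem _ hy)
          refine ⟨?_, h2⟩
          rcases mem_insert.1 h1 with h3 | h3
          · exfalso
            have h4 := hx y hy
            rcases mem_insert.1 hx1.1 with h5 | h5
            · omega
            · have := hJ0 _ h5; omega
          · exact h3
        rcases mem_insert.1 hx1.1 with h5 | h5
        · -- the head has the index `j`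
          have hF' : insert (pt (j, x.2)) F ∈ A ∪ A.biUnion (fun F => Λ.image (fun a => insert (pt (j, a)) F)) := by
            refine mem_union_right _ (mem_biUnion.2 ⟨F, hF, mem_image.2 ⟨x.2, hx1.2, rfl⟩⟩)
          have h6 := hJ _ hF' I hI' htail
          have hlen : (I.map Prod.snd).length ≤ N := by
            rw [List.length_map, ← hJc]
            have hnd : (I.map Prod.fst).Nodup := by
              rw [List.nodup_iff_pairwise_ne, List.pairwise_map]
              exact hI'.imp (fun h => h.ne)
            have h7 : (I.map Prod.fst).toFinset ⊆ J := by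
              intro y hy
              rw [List.mem_toFinset, List.mem_map] at hy
              obtain ⟨z, hz, rfl⟩ := hy
              exact (htail z hz).1
            have h8 := card_le_card h7
            rw [List.toFinset_card_of_nodup hnd, List.length_map] at h8
            exact h8
          have h7 := hj F hF x.2 hx1.2 (I.map Prod.snd) ⟨hlen, by
            intro a ha
            rw [List.mem_map] at ha
            obtain ⟨z, hz, rfl⟩ := ha
            exact (htail z hz).2⟩
          rw [List.map_cons, List.map_cons, ← h7, ← h6]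
          have h8 : F ∪ (pt x :: I.map pt).toFinset = insert (pt (j, x.2)) F ∪ (I.map pt).toFinset := by
            have : pt (j, x.2) = pt x := by rw [← h5]
            rw [this]
            ext y
            simp only [List.toFinset_cons, mem_union, mem_insert]
            tauto
          rw [h8]
        · refine hJ F (mem_union_left _ hF) (x :: I) (List.pairwise_cons.2 ⟨hx, hI'⟩) ?_
          intro y hy
          rcases List.mem_cons.1 hy with rfl | hy
          · exact ⟨h5, hx1.2⟩
          · exact htail y hy

end Pool.Agent.N790.FS
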