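import Mathlib
import Pool.Agent.N790.FS.Lim
import Pool.Agent.N790.FS.Hit

/-! Free sets of shifts. -/

set_option autoImplicit false

namespace Pool.Agent.N790.FS

open Finset Filter
open Pool.Agent.R494.BGen Pool.Agent.R494.CG

/-- the shifts in `S` can be prescribed freely -/
def Free (q : ℕ) (r lam : ℤ) (S : Set ℤ) : Prop :=
  ∀ φ : List ℤ, (∀ a ∈ φ, a ∈ S) → L (Pat q r) (φ.map (fun a => (lam, a))) ∅

theorem Free.mono {q : ℕ} {r lam : ℤ} {S S' : Set ℤ} (h : S ⊆ S') (hS : Free q r lam S') :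
    Free q r lam S := fun φ hφ => hS φ fun a ha => h (hφ a ha)

theorem pt_ne {lam a a' B : ℤ} {j j' : ℕ} (hlam : lam ≠ 0) (hj : j < j') (hB : B ≤ j)
    (ha : |a - a'| < B) : lam * fc j + a ≠ lam * fc j' + a' := by
  intro h
  have h1 : lam * (fc j' - fc j) = a - a' := by linarith
  have h2 := fc_gap hj
  have h3 : 1 ≤ |lam| := Int.one_le_abs hlam
  have h4 : |lam * (fc j' - fc j)| = |lam| * (fc j' - fc j) := by
    rw [abs_mul, abs_of_nonneg (a := fc j' - fc j) (by have : (0 : ℤ) ≤ j := by positivity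
                                                       linarith)]
  have h5 : (0 : ℤ) ≤ j := by positivity
  rw [← h1, h4] at ha
  nlinarith

theorem prodlt {B n : ℕ} {β β' : Fin B} (h : β < β') (a a' : Fin n) :
    finProdFinEquiv (β, a) < finProdFinEquiv (β', a') := by
  rw [Fin.lt_def]
  simp only [finProdFinEquiv_apply_val]
  have h1 : (β : ℕ) + 1 ≤ β' := h
  have h2 : n * ((β : ℕ) + 1) ≤ n * β' := Nat.mul_le_mul_left n h1
  have h3 := a.2
  nlinarith

/-- **free subsets** -/
theorem free_sub (q : ℕ) (r lam : ℤ) (hq : 1 ≤ q) (hqr : IsCoprime r (q : ℤ)) (hlam : lam ≠ 0)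
    (n m : ℕ) (hn : 1 ≤ n) (hm : 4 * m ≤ n) (e : Fin n → ℤ)
    (hadm : ∀ p : ℕ, p.Prime → p ≤ n → ¬ (p : ℤ) ∣ q → ∃ c : ℤ, ∀ a, ¬ (p : ℤ) ∣ e a - c) :
    ∃ I : Finset (Fin n), I.card = m + 1 ∧ Free q r lam {x | ∃ a ∈ I, x = e a} := by
  classical
  by_contra hcon
  have hex : ∀ I : Finset (Fin n), ∃ φ : List ℤ, I.card = m + 1 → (∀ a ∈ φ, ∃ b ∈ I, a = e b) ∧
      ¬ L (Pat q r) (φ.map (fun a => (lam, a))) ∅ := by
    intro I
    by_cases hI : I.card = m + 1
    · have h1 : ¬ Free q r lam {x | ∃ a ∈ I, x = e a} := fun h => hcon ⟨I, hI, h⟩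
      unfold Free at h1
      push Not at h1
      obtain ⟨φ, hφ1, hφ2⟩ := h1
      exact ⟨φ, fun _ => ⟨hφ1, hφ2⟩⟩
    · exact ⟨[], fun h => absurd h hI⟩
  choose φ hφ using hex
  obtain ⟨H, hH⟩ : ∃ H : ℕ, ∀ I, (φ I).length ≤ H :=
    ⟨univ.sup (fun I => (φ I).length), fun I => Finset.le_sup (f := fun I => (φ I).length) (mem_univ I)⟩
  obtain ⟨R, hR⟩ : ∃ R : ℕ, R = n * (2 ^ n * H) := ⟨_, rfl⟩
  obtain ⟨c₀, hc₀, hc₁, hQ⟩ := qg
  obtain ⟨B, hB⟩ : ∃ B : ℕ, 4 * (R : ℝ) < c₀ * B := by
    obtain ⟨B, hB⟩ := exists_nat_gt (4 * (R : ℝ) / c₀)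
    refine ⟨B, ?_⟩
    rw [div_lt_iff₀ hc₀] at hB
    linarith
  have hR0 : (0 : ℝ) ≤ R := by positivity
  have hB1 : 1 ≤ B := by
    rcases Nat.eq_zero_or_pos B with h | h
    · subst h
      simp at hB
      linarith
    · exact h
  have hB1' : (1 : ℝ) ≤ B := by exact_mod_cast hB1
  have hn' : (1 : ℝ) ≤ n := by exact_mod_cast hn
  have hTM : (4 - c₀) * ((m * B + R : ℕ) : ℝ) < ((B * n : ℕ) : ℝ) := by
    push_cast
    rcases Nat.eq_zero_or_pos m with h | h
    · subst h
      push_cast
      nlinarith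
    · have h1 : (1 : ℝ) ≤ m := by exact_mod_cast h
      have h2 : (4 : ℝ) * m ≤ n := by exact_mod_cast hm
      have h3 : (4 : ℝ) * m * B ≤ n * B := by nlinarith
      have h4 : c₀ * B ≤ c₀ * (m * B) := by
        apply mul_le_mul_of_nonneg_left _ hc₀.le
        nlinarith
      nlinarith
  obtain ⟨K, hK, hQK⟩ := hQ (B * n) (m * B + R) (Nat.mul_pos hB1 hn) hTM
  -- the labels
  set Λ : Finset (ℤ × ℤ) := univ.image (fun a : Fin n => (lam, e a)) with hΛ
  obtain ⟨Be, hBe⟩ : ∃ Be : ℕ, ∀ a b, |e a - e b| < (Be : ℤ) := by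
    refine ⟨univ.sup (fun x : Fin n × Fin n => (e x.1 - e x.2).natAbs) + 1, fun a b => ?_⟩
    have h1 := Finset.le_sup (f := fun x : Fin n × Fin n => (e x.1 - e x.2).natAbs) (mem_univ (a, b))
    simp only at h1
    rw [Int.abs_eq_natAbs]
    exact_mod_cast Nat.lt_succ_of_le h1
  obtain ⟨J, hJc, hJ0, hJ⟩ := real (Pat q r) Λ (B * n * K) {∅} (B * n * K + Be)
  set emb : Fin (B * n * K) ↪o ℕ := J.orderEmbOfFin hJc with hemb
  have hembJ : ∀ t, emb t ∈ J := fun t => Finset.orderEmbOfFin_mem J hJc t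
  set idx : Fin (B * n) → Fin K → ℕ := fun g i => emb (finProdFinEquiv (g, i)) with hidx
  set lab : Fin (B * n) → Fin n := fun g => (finProdFinEquiv.symm g).2 with hlab
  set x : Fin (B * n) → Fin K → ℤ := fun g i => lam * fc (idx g i) + e (lab g) with hx
  have hidx0 : ∀ g i, B * n * K + Be ≤ idx g i := fun g i => hJ0 _ (hembJ _)
  have hxinj : Function.Injective (fun y : Fin (B * n) × Fin K => x y.1 y.2) := by
    rintro ⟨g, i⟩ ⟨g', i'⟩ h
    simp only [hx] at h
    rcases lt_trichotomy (finProdFinEquiv (g, i)) (finProdFinEquiv (g', i')) with h1 | h1 | h1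
    · exfalso
      have h2 : idx g i < idx g' i' := emb.strictMono h1
      exact pt_ne hlam h2 (B := (Be : ℤ)) (by have := hidx0 g i; push_cast at *; omega) (hBe _ _) h
    · exact finProdFinEquiv.injective h1
    · exfalso
      have h2 : idx g' i' < idx g i := emb.strictMono h1
      exact pt_ne hlam h2 (B := (Be : ℤ)) (by have := hidx0 g' i'; push_cast at *; omega) (hBe _ _) h.symm
  obtain ⟨S, c, hS, hPat⟩ := hit (B * n) K (m * B + R) hQK q r hq hqr x hxinj (by
    intro p hp hpK hpq
    have hdv : ∀ g i, (p : ℤ) ∣ lam * fc (idx g i) := fun g i =>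
      Dvd.dvd.mul_left (fc_dvd hp.pos (by have := hidx0 g i; omega)) _
    have key : ∀ c : ℤ, (∀ a, ¬ (p : ℤ) ∣ e a - c) → ∃ c : ℤ, ∀ g i, ¬ (p : ℤ) ∣ x g i - c := by
      intro c hc
      refine ⟨c, fun g i hd => hc (lab g) ?_⟩
      have h1 := dvd_sub hd (hdv g i)
      have e1 : x g i - c - lam * fc (idx g i) = e (lab g) - c := by simp only [hx]; ring
      rwa [e1] at h1
    rcases Nat.lt_or_ge n p with h | h
    · obtain ⟨n', hn'⟩ := exists_shift_int hp (show n * 1 < p by omega) (fun a (_ : Fin 1) => e a)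
      refine key (-n') fun a hd => hn' a 0 ?_
      have e1 : e a - -n' = n' + e a := by ring
      rwa [e1] at hd
    · obtain ⟨c, hc⟩ := hadm p hp h hpq
      exact key c hc)
  -- a set of labels which occurs in many blocks
  set Gd : Finset (Fin n) → Finset (Fin B) := fun I =>
    univ.filter (fun β => ∀ a ∈ I, finProdFinEquiv (β, a) ∈ S) with hGd
  obtain ⟨I, hI, hIc⟩ : ∃ I : Finset (Fin n), I.card = m + 1 ∧ H < (Gd I).card := by
    by_contra hc2
    push Not at hc2
    set hits : Fin B → Finset (Fin n) := fun β => univ.filter (fun a => finProdFinEquiv (β, a) ∈ S)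
      with hhits
    have h1 : S.card = ∑ β, (hits β).card := by
      have h2 : S = univ.biUnion (fun β => (hits β).image (fun a => finProdFinEquiv (β, a))) := by
        ext g
        simp only [mem_biUnion, mem_univ, true_and, mem_image, hhits, mem_filter]
        constructor
        · intro hg
          have e1 : finProdFinEquiv ((finProdFinEquiv.symm g).1, (finProdFinEquiv.symm g).2) = g := by
            rw [Prod.mk.eta, Equiv.apply_symm_apply]
          exact ⟨(finProdFinEquiv.symm g).1, (finProdFinEquiv.symm g).2, by rw [e1]; exact hg, e1⟩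
        · rintro ⟨β, a, ha, rfl⟩
          exact ha
      conv_lhs => rw [h2]
      rw [card_biUnion]
      · refine sum_congr rfl fun β _ => ?_
        rw [card_image_of_injective]
        intro a a' h
        have := finProdFinEquiv.injective h
        simpa using this
      · intro β _ β' _ hne
        rw [Function.onFun, Finset.disjoint_left]
        intro g hg hg'
        obtain ⟨a, -, rfl⟩ := mem_image.1 hg
        obtain ⟨a', -, h⟩ := mem_image.1 hg'
        have := finProdFinEquiv.injective h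
        simp only [Prod.mk.injEq] at this
        exact hne this.1.symm
    set Good : Finset (Fin B) := univ.filter (fun β => m + 1 ≤ (hits β).card) with hGood
    have h2 : S.card ≤ m * B + n * Good.card := by
      rw [h1]
      calc ∑ β, (hits β).card ≤ ∑ β, (m + if m + 1 ≤ (hits β).card then n else 0) := by
            refine sum_le_sum fun β _ => ?_
            split_ifs with h
            · have : (hits β).card ≤ n := by
                have := card_le_univ (hits β)
                simpa using this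
              omega
            · omega
        _ = m * B + n * Good.card := by
            rw [sum_add_distrib, sum_const, card_univ, Fintype.card_fin, smul_eq_mul, ← sum_filter,
              sum_const, smul_eq_mul]
            ring
    have h3 : Good.card ≤ 2 ^ n * H := by
      have h4 : Good ⊆ (powersetCard (m + 1) (univ : Finset (Fin n))).biUnion Gd := by
        intro β hβ
        obtain ⟨I, hI1, hI2⟩ := exists_subset_card_eq (mem_filter.1 hβ).2
        refine mem_biUnion.2 ⟨I, mem_powersetCard.2 ⟨subset_univ _, hI2⟩, mem_filter.2 ⟨mem_univ _, ?_⟩⟩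
        intro a ha
        exact (mem_filter.1 (hI1 ha)).2
      calc Good.card ≤ _ := card_le_card h4
        _ ≤ ∑ I ∈ powersetCard (m + 1) (univ : Finset (Fin n)), (Gd I).card := card_biUnion_le
        _ ≤ ∑ I ∈ powersetCard (m + 1) (univ : Finset (Fin n)), H :=
            sum_le_sum fun I hI => hc2 I (mem_powersetCard.1 hI).2
        _ ≤ 2 ^ n * H := by
            rw [sum_const, smul_eq_mul]
            refine Nat.mul_le_mul_right _ ?_
            calc (powersetCard (m + 1) (univ : Finset (Fin n))).card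
                ≤ (univ : Finset (Finset (Fin n))).card := card_le_univ _
              _ = 2 ^ n := by simp
    have h5 : n * Good.card ≤ n * (2 ^ n * H) := Nat.mul_le_mul_left n h3
    omega
  -- the list
  obtain ⟨hφ1, hφ2⟩ := hφ I hI
  have hlen := hH I
  set bl : Fin (Gd I).card ↪o Fin B := (Gd I).orderEmbOfFin rfl with hbl
  have hblm : ∀ t, bl t ∈ Gd I := fun t => Finset.orderEmbOfFin_mem _ rfl t
  have hlab' : ∀ l : Fin (φ I).length, ∃ b ∈ I, (φ I).get l = e b := fun l =>
    hφ1 _ (List.get_mem _ _)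
  choose a ha1 ha2 using hlab'
  set β : Fin (φ I).length → Fin B := fun l => bl ⟨l, by have := l.2; omega⟩ with hβ
  set g : Fin (φ I).length → Fin (B * n) := fun l => finProdFinEquiv (β l, a l) with hg
  have hgS : ∀ l, g l ∈ S := fun l => (mem_filter.1 (hblm ⟨l, by have := l.2; omega⟩)).2 _ (ha1 l)
  have hβlt : ∀ l l', l < l' → β l < β l' := fun l l' h => bl.strictMono (by
    rw [Fin.lt_def]; exact h)
  have hglt : ∀ l l', l < l' → g l < g l' := fun l l' h => prodlt (hβlt l l' h) _ _
  set Il : List (ℕ × (ℤ × ℤ)) := List.ofFn (fun l : Fin (φ I).length =>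
    (idx (g l) (c (g l)), (lam, (φ I).get l))) with hIl
  have hr := hJ ∅ (mem_singleton_self _) Il (by
    rw [hIl, List.pairwise_ofFn]
    intro l l' hll
    exact emb.strictMono (prodlt (hglt l l' hll) _ _)) (by
    intro y hy
    rw [hIl, List.mem_ofFn] at hy
    obtain ⟨l, rfl⟩ := hy
    refine ⟨hembJ _, ?_⟩
    simp only
    rw [ha2 l]
    exact mem_image_of_mem _ (mem_univ _))
  apply hφ2
  have hsnd : Il.map Prod.snd = (φ I).map (fun a => (lam, a)) := by
    rw [hIl, List.map_ofFn]
    have : (Prod.snd ∘ fun l : Fin (φ I).length => (idx (g l) (c (g l)), (lam, (φ I).get l))) =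
        (fun a => (lam, a)) ∘ (φ I).get := by funext l; rfl
    rw [this, ← List.map_ofFn, List.ofFn_get]
  rw [← hsnd, ← hr]
  refine pat_mono ?_ hPat
  intro y hy
  rw [empty_union, List.mem_toFinset, List.mem_map] at hy
  obtain ⟨z, hz, rfl⟩ := hy
  rw [hIl, List.mem_ofFn] at hz
  obtain ⟨l, rfl⟩ := hz
  refine mem_image.2 ⟨g l, hgS l, ?_⟩
  simp only [hx, pt]
  have : lab (g l) = a l := by
    change (finProdFinEquiv.symm (finProdFinEquiv (β l, a l))).2 = a l
    rw [Equiv.symm_apply_apply]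
  rw [this, ha2 l]

end Pool.Agent.N790.FS
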