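import Mathlib
import Pool.Agent.N790.FS.Free
import Pool.Agent.N790.GS.Alg

/-! Sets of integers reached by sums of elements of free sets. -/

set_option autoImplicit false

namespace Pool.Agent.N790.FS

open Finset Filter
open Pool.Agent.R494.BGen Pool.Agent.R494.CG

/-- all elements of `W` are sums of `m` differences `s - s₀`, with elements `s` of fixed free sets and fixed
elements `s₀` of these sets -/
def Reach (q : ℕ) (r : ℤ) (m : ℕ) (W : Set ℤ) : Prop :=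
  ∃ (S : Fin m → Set ℤ) (s₀ : Fin m → ℤ), (∀ i, Free q r 1 (S i)) ∧ (∀ i, s₀ i ∈ S i) ∧
    ∀ w ∈ W, ∃ s : Fin m → ℤ, (∀ i, s i ∈ S i) ∧ ∑ i, (s i - s₀ i) = w

theorem Reach.mono {q : ℕ} {r : ℤ} {m : ℕ} {W W' : Set ℤ} (h : W ⊆ W') (hW : Reach q r m W') :
    Reach q r m W := by
  obtain ⟨S, s₀, h1, h2, h3⟩ := hW
  exact ⟨S, s₀, h1, h2, fun w hw => h3 w (h hw)⟩

theorem Reach.add {q : ℕ} {r : ℤ} {m m' : ℕ} {W W' : Set ℤ} (hW : Reach q r m W) (hW' : Reach q r m' W') :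
    Reach q r (m + m') {x | ∃ w ∈ W, ∃ w' ∈ W', x = w + w'} := by
  obtain ⟨S, s₀, h1, h2, h3⟩ := hW
  obtain ⟨S', s₀', h1', h2', h3'⟩ := hW'
  refine ⟨Fin.append S S', Fin.append s₀ s₀', ?_, ?_, ?_⟩
  · intro i
    refine Fin.addCases (fun i => ?_) (fun i => ?_) i
    · rw [Fin.append_left]; exact h1 i
    · rw [Fin.append_right]; exact h1' i
  · intro i
    refine Fin.addCases (fun i => ?_) (fun i => ?_) i
    · rw [Fin.append_left, Fin.append_left]; exact h2 i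
    · rw [Fin.append_right, Fin.append_right]; exact h2' i
  · rintro _ ⟨w, hw, w', hw', rfl⟩
    obtain ⟨s, hs, hsum⟩ := h3 w hw
    obtain ⟨s', hs', hsum'⟩ := h3' w' hw'
    refine ⟨Fin.append s s', ?_, ?_⟩
    · intro i
      refine Fin.addCases (fun i => ?_) (fun i => ?_) i
      · rw [Fin.append_left, Fin.append_left]; exact hs i
      · rw [Fin.append_right, Fin.append_right]; exact hs' i
    · rw [Fin.sum_univ_add]
      simp only [Fin.append_left, Fin.append_right]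
      rw [hsum, hsum']

theorem Reach.one {q : ℕ} {r : ℤ} {S : Set ℤ} (hS : Free q r 1 S) {s₀ : ℤ} (h0 : s₀ ∈ S) :
    Reach q r 1 {x | ∃ s ∈ S, x = s - s₀} := by
  refine ⟨fun _ => S, fun _ => s₀, fun _ => hS, fun _ => h0, ?_⟩
  rintro _ ⟨s, hs, rfl⟩
  exact ⟨fun _ => s, fun _ => hs, by simp⟩

/-- sums of `j` elements -/
def mult : ℕ → Set ℤ → Set ℤ
  | 0, _ => {0}
  | j + 1, D => {x | ∃ y ∈ mult j D, ∃ d ∈ D, x = y + d}

theorem Reach.zero (q : ℕ) (r : ℤ) : Reach q r 0 {0} :=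
  ⟨fun i => i.elim0, fun i => i.elim0, fun i => i.elim0, fun i => i.elim0, fun w hw =>
    ⟨fun i => i.elim0, fun i => i.elim0, by simpa using hw.symm⟩⟩

theorem Reach.mult {q : ℕ} {r : ℤ} {m : ℕ} {D : Set ℤ} (hD : Reach q r m D) (j : ℕ) :
    Reach q r (m * j) (mult j D) := by
  induction j with
  | zero => exact Reach.zero q r
  | succ j ih => exact ih.add hD

theorem free_zero (q : ℕ) (r lam : ℤ) (hq : 1 ≤ q) (hqr : IsCoprime r (q : ℤ)) (hlam : lam ≠ 0) :
    Free q r lam {0} := by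
  obtain ⟨I, hI, hF⟩ := free_sub q r lam hq hqr hlam 1 0 le_rfl (by norm_num) (fun _ => 0) (by
    intro p hp _ _
    refine ⟨1, fun _ hd => ?_⟩
    have h1 : (p : ℤ) ∣ 1 := by simpa using hd
    have h2 : p ∣ 1 := by exact_mod_cast h1
    exact hp.one_lt.ne' (Nat.dvd_one.1 h2))
  refine hF.mono ?_
  obtain ⟨a, ha⟩ : I.Nonempty := card_pos.1 (by omega)
  rintro _ rfl
  exact ⟨a, ha, rfl⟩

theorem Reach.le {q : ℕ} {r : ℤ} (hq : 1 ≤ q) (hqr : IsCoprime r (q : ℤ)) {m m' : ℕ} {W : Set ℤ}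
    (hm : m ≤ m') (hW : Reach q r m W) : Reach q r m' W := by
  have h0 : Reach q r 1 {0} := by
    refine (Reach.one (free_zero q r 1 hq hqr one_ne_zero) (Set.mem_singleton 0)).mono ?_
    rintro _ rfl
    exact ⟨0, rfl, by simp⟩
  obtain ⟨t, rfl⟩ := Nat.exists_eq_add_of_le hm
  clear hm
  induction t with
  | zero => exact hW
  | succ t ih =>
    refine (ih.add h0).mono ?_
    intro w hw
    exact ⟨w, hw, 0, rfl, by simp⟩

/-- differences of two elements of a free set -/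
def P (q : ℕ) (r : ℤ) : Set ℤ := {z | ∃ t, Free q r 1 {t, t + z}}

theorem P_neg {q : ℕ} {r z : ℤ} (hz : z ∈ P q r) : -z ∈ P q r := by
  obtain ⟨t, ht⟩ := hz
  refine ⟨t + z, ?_⟩
  have e : t + z + -z = t := by ring
  rw [e, Set.pair_comm]
  exact ht

theorem star (q : ℕ) (r : ℤ) (hq : 1 ≤ q) (hq2 : 2 ∣ q) (hqr : IsCoprime r (q : ℤ)) :
    GS.Star (P q r) := by
  classical
  intro e he
  obtain ⟨I, hI, hF⟩ := free_sub q r 1 hq hqr one_ne_zero 4 1 (by norm_num) le_rfl e (by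
    intro p hp hp4 hpq
    have hp2 : p ≠ 2 := by
      rintro rfl
      exact hpq (by exact_mod_cast hq2)
    have hp3 : p = 3 := by
      have := hp.two_le
      have h4 : p ≠ 4 := by rintro rfl; exact absurd hp (by norm_num)
      omega
    subst hp3
    obtain ⟨c, hc⟩ := he
    exact ⟨c, by exact_mod_cast hc⟩)
  obtain ⟨a, ha, b, hb, hab⟩ := one_lt_card.1 (show 1 < I.card by omega)
  have key : ∀ a ∈ I, ∀ b ∈ I, e b - e a ∈ P q r := by
    intro a ha b hb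
    refine ⟨e a, hF.mono ?_⟩
    rintro x (rfl | hx)
    · exact ⟨a, ha, rfl⟩
    · rw [Set.mem_singleton_iff] at hx
      exact ⟨b, hb, by rw [hx]; ring⟩
  rcases lt_or_gt_of_ne hab with h | h
  · exact ⟨a, b, h, key a ha b hb⟩
  · exact ⟨b, a, h, key b hb a ha⟩

/-- three elements of `P` -/
theorem three_P (q : ℕ) (r : ℤ) (hq : 1 ≤ q) (hq2 : 2 ∣ q) (hqr : IsCoprime r (q : ℤ)) :
    ∃ E : ℤ, (E = 2 ∨ E = 3) ∧ ∀ n : ℤ, ∃ p : Fin 3 → ℤ, (∀ i, p i ∈ P q r) ∧ ∑ i, p i = E * n := by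
  obtain ⟨E, hE, h1, -⟩ := GS.trich (star q r hq hq2 hqr)
  have key : ∀ h ∈ GS.Sg (P q r), ∃ p : Fin 3 → ℤ, (∀ i, p i ∈ P q r) ∧ ∑ i, p i = h := by
    rintro h ⟨p, hp, p', hp', p'', hp'', hh⟩
    rcases hh with hh | hh
    · refine ⟨![p, p', -p''], ?_, ?_⟩
      · intro i
        fin_cases i
        · exact hp
        · exact hp'
        · exact P_neg hp''
      · rw [Fin.sum_univ_three]
        simp
        linarith
    · refine ⟨![-p, -p', p''], ?_, ?_⟩
      · intro i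
        fin_cases i
        · exact P_neg hp
        · exact P_neg hp'
        · exact hp''
      · rw [Fin.sum_univ_three]
        simp
        linarith
  rcases hE with rfl | rfl | rfl
  · exact ⟨2, Or.inl rfl, fun n => by simpa using key _ (h1 (2 * n))⟩
  · exact ⟨2, Or.inl rfl, fun n => key _ (h1 n)⟩
  · exact ⟨3, Or.inr rfl, fun n => key _ (h1 n)⟩

theorem Reach.P {q : ℕ} {r z : ℤ} (hz : z ∈ P q r) : Reach q r 1 {0, z} := by
  obtain ⟨t, ht⟩ := hz
  refine (Reach.one ht (s₀ := t) (by simp)).mono ?_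
  rintro x (rfl | hx)
  · exact ⟨t, by simp, by simp⟩
  · rw [Set.mem_singleton_iff] at hx
    subst hx
    exact ⟨t + x, by simp, by ring⟩

theorem Reach.three {q : ℕ} {r : ℤ} {p : Fin 3 → ℤ} (hp : ∀ i, p i ∈ FS.P q r) :
    Reach q r 3 {0, ∑ i, p i} := by
  refine (((Reach.P (hp 0)).add (Reach.P (hp 1))).add (Reach.P (hp 2))).mono ?_
  rintro x (rfl | hx)
  · exact ⟨0, ⟨0, by simp, 0, by simp, by simp⟩, 0, by simp, by simp⟩
  · rw [Set.mem_singleton_iff, Fin.sum_univ_three] at hx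
    exact ⟨p 0 + p 1, ⟨p 0, by simp, p 1, by simp, rfl⟩, p 2, by simp, hx⟩

end Pool.Agent.N790.FS
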