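import Mathlib
import Pool.Agent.N790.FS.Reach

/-! Iterated difference sets of dense sets contain all multiples of a small number. -/

set_option autoImplicit false

namespace Pool.Agent.N790.FS

open Finset

/-- the difference set -/
def Df (T : Finset ℤ) : Set ℤ := {x | ∃ a ∈ T, ∃ b ∈ T, x = a - b}

theorem Df_neg {T : Finset ℤ} {x : ℤ} (h : x ∈ Df T) : -x ∈ Df T := by
  obtain ⟨a, ha, b, hb, rfl⟩ := h
  exact ⟨b, hb, a, ha, by ring⟩

theorem Df_zero {T : Finset ℤ} (hT : T.Nonempty) : (0 : ℤ) ∈ Df T := by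
  obtain ⟨a, ha⟩ := hT
  exact ⟨a, ha, a, ha, by ring⟩

theorem mult_succ {D : Set ℤ} {j : ℕ} {y d : ℤ} (hy : y ∈ mult j D) (hd : d ∈ D) : y + d ∈ mult (j + 1) D :=
  ⟨y, hy, d, hd, rfl⟩

theorem mult_mono {D : Set ℤ} (h0 : (0 : ℤ) ∈ D) {i j : ℕ} (h : i ≤ j) : mult i D ⊆ mult j D := by
  obtain ⟨t, rfl⟩ := Nat.exists_eq_add_of_le h
  clear h
  induction t with
  | zero => exact subset_rfl
  | succ t ih =>
    intro x hx
    have := mult_succ (ih hx) h0
    rw [add_zero] at this
    exact this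

theorem mult_neg {D : Set ℤ} (hD : ∀ x ∈ D, -x ∈ D) (j : ℕ) : ∀ x ∈ mult j D, -x ∈ mult j D := by
  induction j with
  | zero => rintro x rfl; simp [mult]
  | succ j ih =>
    rintro x ⟨y, hy, d, hd, rfl⟩
    exact ⟨-y, ih y hy, -d, hD d hd, by ring⟩

theorem mult_zero_mem {D : Set ℤ} (h0 : (0 : ℤ) ∈ D) (j : ℕ) : (0 : ℤ) ∈ mult j D :=
  mult_mono h0 (Nat.zero_le j) rfl

/-- **the covering lemma** -/
theorem cover {T : Finset ℤ} (hT : T.Nonempty) {α β R : ℤ} {K : ℕ} (hTab : ∀ t ∈ T, α ≤ t ∧ t ≤ β)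
    (hR : (K : ℤ) ≤ R) (hcard : β - α + 1 + 2 * R < (K + 1) * T.card) :
    ∃ E : ℤ, 1 ≤ E ∧ E ≤ K ∧ ∀ n : ℤ, |E * n| ≤ R → E * n ∈ mult (4 * K) (Df T) := by
  classical
  have hK0 : (0 : ℤ) ≤ K := by positivity
  have h0 := Df_zero hT
  have hneg : ∀ x ∈ Df T, -x ∈ Df T := fun x => Df_neg
  -- a maximal family of disjoint translates
  set Fam : Finset (Finset ℤ) := (Icc (-R) R).powerset.filter
    (fun τ => ∀ x ∈ τ, ∀ y ∈ τ, x ≠ y → x - y ∉ Df T) with hFam
  have hFne : Fam.Nonempty := ⟨∅, by simp [hFam]⟩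
  obtain ⟨τ, hτ, hmax⟩ := exists_max_image Fam (fun τ => τ.card) hFne
  obtain ⟨hτ1, hτ2⟩ := mem_filter.1 hτ
  rw [mem_powerset] at hτ1
  have hτc : τ.card ≤ K := by
    have h1 : (τ.biUnion (fun x => T.image (fun t => t + x))).card = τ.card * T.card := by
      rw [card_biUnion]
      · rw [sum_congr rfl (fun x _ => card_image_of_injective T (add_left_injective x)), sum_const, smul_eq_mul]
      · intro x hx y hy hxy
        rw [Function.onFun, Finset.disjoint_left]
        intro z hz hz'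
        obtain ⟨a, ha, rfl⟩ := mem_image.1 hz
        obtain ⟨b, hb, hab⟩ := mem_image.1 hz'
        exact hτ2 x hx y hy hxy ⟨b, hb, a, ha, by linarith⟩
    have h2 : (τ.biUnion (fun x => T.image (fun t => t + x))) ⊆ Icc (α - R) (β + R) := by
      intro z hz
      obtain ⟨x, hx, hz⟩ := mem_biUnion.1 hz
      obtain ⟨t, ht, rfl⟩ := mem_image.1 hz
      have h3 := mem_Icc.1 (hτ1 hx)
      have h4 := hTab t ht
      rw [mem_Icc]
      constructor <;> linarith
    have h3 := card_le_card h2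
    rw [h1, Int.card_Icc] at h3
    have h4 : ((τ.card * T.card : ℕ) : ℤ) ≤ β - α + 1 + 2 * R := by
      obtain ⟨t, ht⟩ := hT
      have := hTab t ht
      have h5 : ((β + R + 1 - (α - R)).toNat : ℤ) = β + R + 1 - (α - R) := Int.toNat_of_nonneg (by linarith)
      have h6 : ((τ.card * T.card : ℕ) : ℤ) ≤ ((β + R + 1 - (α - R)).toNat : ℤ) := by exact_mod_cast h3
      rw [h5] at h6
      linarith
    have h5 : ((τ.card * T.card : ℕ) : ℤ) < (K + 1) * T.card := lt_of_le_of_lt h4 hcard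
    push_cast at h5
    have h6 : (0 : ℤ) < T.card := by exact_mod_cast card_pos.2 hT
    have h7 : (τ.card : ℤ) < K + 1 := lt_of_mul_lt_mul_right h5 h6.le
    omega
  have hcov : ∀ x : ℤ, |x| ≤ R → ∃ t ∈ τ, x - t ∈ Df T := by
    intro x hx
    by_cases hxτ : x ∈ τ
    · exact ⟨x, hxτ, by rw [sub_self]; exact h0⟩
    by_contra hcon
    push Not at hcon
    have h1 : insert x τ ∈ Fam := by
      refine mem_filter.2 ⟨mem_powerset.2 ?_, ?_⟩
      · intro y hy
        rcases mem_insert.1 hy with rfl | hy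
        · exact mem_Icc.2 (abs_le.1 hx)
        · exact hτ1 hy
      · intro y hy z hz hyz
        rcases mem_insert.1 hy with hy' | hy' <;> rcases mem_insert.1 hz with hz' | hz'
        · exact absurd (hy'.trans hz'.symm) hyz
        · rw [hy']; exact hcon z hz'
        · intro h
          apply hcon y hy'
          have := hneg _ h
          rwa [neg_sub, hz'] at this
        · exact hτ2 y hy' z hz' hyz
    have h2 := hmax _ h1
    rw [card_insert_of_notMem hxτ] at h2
    omega
  -- the chain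
  set C : ℕ → Finset ℤ := fun j => τ.filter (fun t => ∃ d ∈ Df T, |t + d| ≤ R ∧ t + d ∈ mult j (Df T)) with hC
  have hCmono : ∀ i j, i ≤ j → C i ⊆ C j := by
    intro i j hij t ht
    obtain ⟨h1, d, hd, h2, h3⟩ := mem_filter.1 ht
    exact mem_filter.2 ⟨h1, d, hd, h2, mult_mono h0 hij h3⟩
  have hR0 : 0 ≤ R := hK0.trans hR
  have hCne : ∀ j, (C j).Nonempty := by
    intro j
    obtain ⟨t, ht, hd⟩ := hcov 0 (by simpa using hR0)
    refine ⟨t, mem_filter.2 ⟨ht, 0 - t, hd, ?_, ?_⟩⟩
    · simpa using hR0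
    · have e : t + (0 - t) = 0 := by ring
      rw [e]
      exact mult_zero_mem h0 j
  obtain ⟨i, hi, hCi⟩ : ∃ i, i < K ∧ C (4 * (i + 1) + 1) ⊆ C (4 * i + 1) := by
    by_contra hcon
    push Not at hcon
    have h1 : ∀ i, i ≤ K → i + 1 ≤ (C (4 * i + 1)).card := by
      intro i
      induction i with
      | zero => intro _; exact card_pos.2 (hCne _)
      | succ i ih =>
        intro hi
        have h2 := ih (by omega)
        have h3 : C (4 * i + 1) ⊂ C (4 * (i + 1) + 1) :=
          ⟨hCmono _ _ (by omega), hcon i (by omega)⟩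
        have h4 := card_lt_card h3
        omega
    have h2 := h1 K le_rfl
    have h3 : (C (4 * K + 1)).card ≤ τ.card := card_filter_le _ _
    omega
  set j := 4 * i + 1 with hj
  have hstab : ∀ x : ℤ, |x| ≤ R → x ∈ mult (j + 4) (Df T) → x ∈ mult (j + 2) (Df T) := by
    intro x hx hxm
    obtain ⟨t, ht, hd⟩ := hcov x hx
    have h1 : t ∈ C (4 * (i + 1) + 1) := by
      refine mem_filter.2 ⟨ht, x - t, hd, ?_, ?_⟩
      · have e : t + (x - t) = x := by ring
        rwa [e]
      · have e : t + (x - t) = x := by ring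
        rw [e]
        exact hxm
    obtain ⟨-, d', hd', -, h2⟩ := mem_filter.1 (hCi h1)
    have h3 := mult_succ h2 (hneg _ hd')
    have h4 := mult_succ h3 hd
    have e : t + d' + -d' + (x - t) = x := by ring
    rw [e] at h4
    exact h4
  -- a small element
  obtain ⟨x, hx, y, hy, hxy, t, d, hd, d', hd', h1, h2⟩ : ∃ x ∈ range (K + 1), ∃ y ∈ range (K + 1), x < y ∧
      ∃ t : ℤ, ∃ d ∈ Df T, ∃ d' ∈ Df T, (x : ℤ) = t + d ∧ (y : ℤ) = t + d' := by
    have hch : ∀ x : ℕ, ∃ t : ℤ, x ∈ range (K + 1) → t ∈ τ ∧ (x : ℤ) - t ∈ Df T := by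
      intro x
      by_cases hx : x ∈ range (K + 1)
      · obtain ⟨t, ht, hd⟩ := hcov x (by
          rw [mem_range] at hx
          rw [abs_of_nonneg (by positivity)]
          have : (x : ℤ) ≤ K := by exact_mod_cast Nat.lt_succ_iff.1 hx
          linarith)
        exact ⟨t, fun _ => ⟨ht, hd⟩⟩
      · exact ⟨0, fun h => absurd h hx⟩
    choose f hf using hch
    obtain ⟨x, hx, y, hy, hne, hxy⟩ := exists_ne_map_eq_of_card_lt_of_maps_to
      (s := range (K + 1)) (t := τ) (by rw [card_range]; omega) (f := f) (fun x hx => (hf x hx).1)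
    rcases lt_or_gt_of_ne hne with h | h
    · exact ⟨x, hx, y, hy, h, f x, _, (hf x hx).2, _, (hf y hy).2, by ring, by rw [hxy]; ring⟩
    · exact ⟨y, hy, x, hx, h, f x, _, (by have := (hf y hy).2; rw [← hxy] at this; exact this), _,
        (hf x hx).2, by ring, by ring⟩
  rw [mem_range] at hx hy
  have hE1 : (1 : ℤ) ≤ (y : ℤ) - x := by
    have : (x : ℤ) + 1 ≤ y := by exact_mod_cast hxy
    linarith
  have hEK : (y : ℤ) - x ≤ K := by
    have h3 : (y : ℤ) ≤ K := by exact_mod_cast Nat.lt_succ_iff.1 hy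
    have h4 : (0 : ℤ) ≤ x := by positivity
    linarith
  have hpos : ∀ n : ℕ, ((y : ℤ) - x) * n ≤ R → ((y : ℤ) - x) * n ∈ mult (j + 2) (Df T) := by
    intro n
    induction n with
    | zero => intro _; rw [Nat.cast_zero, mul_zero]; exact mult_zero_mem h0 _
    | succ n ih =>
      intro hn
      push_cast at hn ⊢
      have h3 : ((y : ℤ) - x) * n ≤ R := by nlinarith
      have h4 := ih h3
      have h5 := mult_succ (mult_succ h4 hd') (hneg _ hd)
      have e : ((y : ℤ) - x) * n + d' + -d = ((y : ℤ) - x) * (n + 1) := by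
        have : (y : ℤ) - x = d' - d := by rw [h1, h2]; ring
        linear_combination (-1) * this
      rw [e] at h5
      refine hstab _ ?_ h5
      rw [abs_of_nonneg (by positivity)]
      exact hn
  have hle : mult (j + 2) (Df T) ⊆ mult (4 * K) (Df T) := mult_mono h0 (by omega)
  refine ⟨(y : ℤ) - x, hE1, hEK, fun n hn => ?_⟩
  rcases le_total 0 n with h | h
  · obtain ⟨n', rfl⟩ := Int.eq_ofNat_of_zero_le h
    exact hle (hpos n' ((le_abs_self _).trans hn))
  · obtain ⟨n', hn'⟩ := Int.eq_ofNat_of_zero_le (show 0 ≤ -n by linarith)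
    have e : n = -(n' : ℤ) := by linarith
    subst e
    have h3 := hle (hpos n' (by
      have := (neg_abs_le (((y : ℤ) - x) * -(n' : ℤ)))
      have h4 := (neg_le_abs (((y : ℤ) - x) * -(n' : ℤ)))
      have e : -(((y : ℤ) - x) * -(n' : ℤ)) = ((y : ℤ) - x) * n' := by ring
      rw [e] at h4
      exact h4.trans hn))
    have h4 := mult_neg hneg _ _ h3
    have e : -(((y : ℤ) - x) * (n' : ℤ)) = ((y : ℤ) - x) * -(n' : ℤ) := by ring
    rwa [e] at h4

end Pool.Agent.N790.FS
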