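import Mathlib

/-! Sums of three squares from a dense set of squares. -/

set_option autoImplicit false

namespace Pool.Agent.N790.FS

open Finset

/-- congruent elements of an interval -/
theorem cls {u v M : ℤ} (hM : 1 ≤ M) (huv : u ≤ v) {s : Finset ℤ} (hs : s ⊆ Icc u v)
    (hc : ∀ x ∈ s, ∀ y ∈ s, M ∣ x - y) : (s.card : ℝ) ≤ (v - u) / M + 1 := by
  have hM0 : (0 : ℤ) < M := by linarith
  have hM' : (0 : ℝ) < M := by exact_mod_cast hM0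
  rcases s.eq_empty_or_nonempty with rfl | hne
  · have : (u : ℝ) ≤ v := by exact_mod_cast huv
    have : (0 : ℝ) ≤ (v - u) / M := div_nonneg (by linarith) hM'.le
    simp
    linarith
  obtain ⟨x₀, hx₀, hmin⟩ := exists_min_image s id hne
  simp only [id] at hmin
  have h1 : s.card ≤ (Icc (0 : ℤ) ((v - u) / M)).card := by
    refine card_le_card_of_injOn (fun y => (y - x₀) / M) ?_ ?_
    · intro y hy
      have h2 := hmin y hy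
      have h3 := mem_Icc.1 (hs hy)
      have h4 := mem_Icc.1 (hs hx₀)
      simp only [coe_Icc, Set.mem_Icc]
      exact ⟨Int.ediv_nonneg (by linarith) hM0.le, Int.ediv_le_ediv hM0 (by linarith)⟩
    · intro y hy y' hy' h
      simp only at h
      have h2 := Int.mul_ediv_cancel' (hc y hy x₀ hx₀)
      have h3 := Int.mul_ediv_cancel' (hc y' hy' x₀ hx₀)
      rw [h] at h2
      linarith
  rw [Int.card_Icc] at h1
  have h2 : (0 : ℤ) ≤ (v - u) / M := Int.ediv_nonneg (by linarith) hM0.le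
  have h3 : (((v - u) / M + 1 - 0).toNat : ℤ) = (v - u) / M + 1 := by
    rw [Int.toNat_of_nonneg (by linarith)]; ring
  have h4 : (s.card : ℤ) ≤ (v - u) / M + 1 := by
    rw [← h3]; exact_mod_cast h1
  have h5 : (((v - u) / M : ℤ) : ℝ) ≤ (v - u) / M := by
    rw [le_div_iff₀ hM']
    have := Int.ediv_mul_le (v - u) hM0.ne'
    exact_mod_cast this
  have h6 : (s.card : ℝ) ≤ (((v - u) / M : ℤ) : ℝ) + 1 := by exact_mod_cast h4
  linarith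

theorem cls6 {u v M N : ℤ} (hM : 1 ≤ M) (hMN : M ≤ 4 * N) (huv : u ≤ v) (huvN : v - u ≤ 2 * N)
    {s : Finset ℤ} (hs : s ⊆ Icc u v) (hc : ∀ x ∈ s, ∀ y ∈ s, M ∣ x - y) :
    (s.card : ℝ) ≤ 6 * N / M := by
  have h1 := cls hM huv hs hc
  have hM' : (0 : ℝ) < M := by exact_mod_cast (show (0 : ℤ) < M by linarith)
  have h2 : ((v : ℝ) - u) / M ≤ 2 * N / M := by
    apply div_le_div_of_nonneg_right _ hM'.le
    exact_mod_cast huvN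
  have h3 : (1 : ℝ) ≤ 4 * N / M := by
    rw [le_div_iff₀ hM', one_mul]
    exact_mod_cast hMN
  have h4 : (6 * N / M : ℝ) = 2 * N / M + 4 * N / M := by ring
  linarith

/-- pairs `(a₁, a₂)` with `b₃ ∣ a₁ b₁ + a₂ b₂` -/
theorem count2 {N : ℤ} (hN : 1 ≤ N) {b₁ b₂ b₃ : ℤ} (hb : 1 ≤ b₃) (hb4 : b₃ ≤ 4 * N) :
    ((((Icc (-N) N) ×ˢ (Icc (-N) N)).filter (fun a : ℤ × ℤ => b₃ ∣ a.1 * b₁ + a.2 * b₂)).card : ℝ) ≤
      36 * N ^ 2 * (Int.gcd b₁ (Int.gcd b₂ b₃)) / b₃ := by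
  classical
  obtain ⟨d, hd⟩ : ∃ d : ℤ, d = Int.gcd b₂ b₃ := ⟨_, rfl⟩
  obtain ⟨g, hg⟩ : ∃ g : ℤ, g = Int.gcd b₁ d := ⟨_, rfl⟩
  have hd0 : 0 < d := by
    rw [hd]
    exact_mod_cast Int.gcd_pos_of_ne_zero_right b₂ (show b₃ ≠ 0 by linarith)
  have hg0 : 0 < g := by
    rw [hg]
    exact_mod_cast Int.gcd_pos_of_ne_zero_right b₁ hd0.ne'
  have hdb3 : d ∣ b₃ := by rw [hd]; exact Int.gcd_dvd_right _ _
  have hdb2 : d ∣ b₂ := by rw [hd]; exact Int.gcd_dvd_left _ _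
  have hgd : g ∣ d := by rw [hg]; exact Int.gcd_dvd_right _ _
  obtain ⟨M₁, hM₁⟩ := hgd
  obtain ⟨M₂, hM₂⟩ := hdb3
  have hM₁0 : 0 < M₁ := by
    rw [hM₁] at hd0
    exact (mul_pos_iff_of_pos_left hg0).1 hd0
  have hM₂0 : 0 < M₂ := by
    have : 0 < d * M₂ := by rw [← hM₂]; linarith
    exact (mul_pos_iff_of_pos_left hd0).1 this
  have hM₁4 : M₁ ≤ 4 * N := by
    have h1 : M₁ ≤ d := by rw [hM₁]; nlinarith
    have h2 : d ≤ b₃ := by rw [hM₂]; nlinarith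
    linarith
  have hM₂4 : M₂ ≤ 4 * N := by
    have h2 : M₂ ≤ b₃ := by rw [hM₂]; nlinarith
    linarith
  -- first coordinate
  have hfst : ∀ a₁ a₂ : ℤ, b₃ ∣ a₁ * b₁ + a₂ * b₂ → M₁ ∣ a₁ := by
    intro a₁ a₂ h
    have h1 : d ∣ a₁ * b₁ := by
      have h2 : d ∣ a₁ * b₁ + a₂ * b₂ := (Dvd.intro _ hM₂.symm).trans h
      exact (dvd_add_left (Dvd.dvd.mul_left hdb2 _)).1 h2
    have h2 : d ∣ b₁ * a₁ := by rwa [mul_comm] at h1
    have h3 : d ∣ (Int.gcd d b₁ : ℤ) * a₁ := by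
      have := (dvd_gcd_mul_iff_dvd_mul (k := d) (m := b₁) (n := a₁)).2 h2
      rwa [Int.coe_gcd]
    rw [Int.gcd_comm, ← hg, hM₁] at h3
    exact (mul_dvd_mul_iff_left hg0.ne').1 h3
  have hsnd : ∀ a₁ a₂ a₂' : ℤ, b₃ ∣ a₁ * b₁ + a₂ * b₂ → b₃ ∣ a₁ * b₁ + a₂' * b₂ → M₂ ∣ a₂ - a₂' := by
    intro a₁ a₂ a₂' h h'
    have h1 : b₃ ∣ b₂ * (a₂ - a₂') := by
      have := dvd_sub h h'
      have e : a₁ * b₁ + a₂ * b₂ - (a₁ * b₁ + a₂' * b₂) = b₂ * (a₂ - a₂') := by ring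
      rwa [e] at this
    have h3 : b₃ ∣ (Int.gcd b₃ b₂ : ℤ) * (a₂ - a₂') := by
      have := (dvd_gcd_mul_iff_dvd_mul (k := b₃) (m := b₂) (n := a₂ - a₂')).2 h1
      rwa [Int.coe_gcd]
    rw [Int.gcd_comm, ← hd] at h3
    nth_rewrite 1 [hM₂] at h3
    exact (mul_dvd_mul_iff_left hd0.ne').1 h3
  -- counting
  set A := Icc (-N) N with hA
  set Z := (A ×ˢ A).filter (fun a : ℤ × ℤ => b₃ ∣ a.1 * b₁ + a.2 * b₂) with hZ
  have h1 : (Z.card : ℝ) ≤ ∑ a₁ ∈ A.filter (fun a => M₁ ∣ a), ((6 * N / M₂ : ℝ)) := by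
    have h2 : Z ⊆ (A.filter (fun a => M₁ ∣ a)).biUnion (fun a₁ =>
        (A.filter (fun a₂ => b₃ ∣ a₁ * b₁ + a₂ * b₂)).image (fun a₂ => (a₁, a₂))) := by
      rintro ⟨a₁, a₂⟩ ha
      obtain ⟨ha1, ha2⟩ := mem_filter.1 ha
      obtain ⟨ha3, ha4⟩ := mem_product.1 ha1
      simp only at ha2 ha3 ha4
      exact mem_biUnion.2 ⟨a₁, mem_filter.2 ⟨ha3, hfst _ _ ha2⟩, mem_image.2 ⟨a₂, mem_filter.2 ⟨ha4, ha2⟩, rfl⟩⟩
    have h3 : Z.card ≤ ∑ a₁ ∈ A.filter (fun a => M₁ ∣ a), (A.filter (fun a₂ => b₃ ∣ a₁ * b₁ + a₂ * b₂)).card := by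
      refine (card_le_card h2).trans (card_biUnion_le.trans (sum_le_sum fun a₁ _ => card_image_le))
    calc (Z.card : ℝ) ≤ ((∑ a₁ ∈ A.filter (fun a => M₁ ∣ a),
          (A.filter (fun a₂ => b₃ ∣ a₁ * b₁ + a₂ * b₂)).card : ℕ) : ℝ) := by exact_mod_cast h3
      _ = ∑ a₁ ∈ A.filter (fun a => M₁ ∣ a), ((A.filter (fun a₂ => b₃ ∣ a₁ * b₁ + a₂ * b₂)).card : ℝ) := by
          push_cast; rfl
      _ ≤ _ := by
          refine sum_le_sum fun a₁ _ => ?_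
          refine cls6 hM₂0 hM₂4 (u := -N) (v := N) (by linarith) (by linarith) (filter_subset _ _) ?_
          intro x hx y hy
          exact hsnd a₁ x y (mem_filter.1 hx).2 (mem_filter.1 hy).2
  have h4 : ((A.filter (fun a => M₁ ∣ a)).card : ℝ) ≤ 6 * N / M₁ := by
    refine cls6 hM₁0 hM₁4 (u := -N) (v := N) (by linarith) (by linarith) (filter_subset _ _) ?_
    intro x hx y hy
    exact dvd_sub (mem_filter.1 hx).2 (mem_filter.1 hy).2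
  rw [sum_const, nsmul_eq_mul] at h1
  have hN' : (0 : ℝ) < N := by exact_mod_cast (show (0 : ℤ) < N by linarith)
  have hM₁' : (0 : ℝ) < M₁ := by exact_mod_cast hM₁0
  have hM₂' : (0 : ℝ) < M₂ := by exact_mod_cast hM₂0
  have hg' : (0 : ℝ) < g := by exact_mod_cast hg0
  have h5 : (b₃ : ℝ) = g * M₁ * M₂ := by
    have : b₃ = g * M₁ * M₂ := by rw [← hM₁, ← hM₂]
    exact_mod_cast this
  have hgg : ((Int.gcd b₁ (Int.gcd b₂ b₃) : ℕ) : ℝ) = g := by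
    have : ((Int.gcd b₁ (Int.gcd b₂ b₃) : ℕ) : ℤ) = g := by rw [hg, hd]
    exact_mod_cast this
  rw [hgg, h5]
  have h6 : (36 * (N : ℝ) ^ 2 * g / (g * M₁ * M₂)) = (6 * N / M₁) * (6 * N / M₂) := by
    field_simp
    norm_num
  rw [h6]
  refine h1.trans (mul_le_mul_of_nonneg_right h4 (by positivity))

theorem sum_inv_sq (n : ℕ) : ∑ h ∈ Icc 1 n, (1 : ℝ) / (h : ℝ) ^ 2 ≤ 2 := by
  have h1 := sum_Ioo_inv_sq_le (α := ℝ) 0 (n + 1)
  have h2 : Ioo 0 (n + 1) = Icc 1 n := by ext x; simp [Nat.lt_iff_add_one_le]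
  rw [h2] at h1
  simp only [one_div]
  refine h1.trans ?_
  norm_num

/-- sum of the greatest common divisors -/
theorem gcd_sum {N : ℤ} (hN : 1 ≤ N) :
    ∑ b ∈ (Icc (2 * N + 1) (4 * N)) ×ˢ ((Icc (2 * N + 1) (4 * N)) ×ˢ (Icc (2 * N + 1) (4 * N))),
      ((Int.gcd b.1 (Int.gcd b.2.1 b.2.2) : ℕ) : ℝ) ≤ 432 * N ^ 3 := by
  classical
  set B := Icc (2 * N + 1) (4 * N) with hB
  obtain ⟨n, hn⟩ := Int.eq_ofNat_of_zero_le (show 0 ≤ 4 * N by linarith)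
  have hN' : (0 : ℝ) < N := by exact_mod_cast (show (0 : ℤ) < N by linarith)
  have h1 : ∀ b ∈ B ×ˢ (B ×ˢ B), ((Int.gcd b.1 (Int.gcd b.2.1 b.2.2) : ℕ) : ℝ) ≤
      ∑ h ∈ Icc 1 n, if (h : ℤ) ∣ b.1 ∧ (h : ℤ) ∣ b.2.1 ∧ (h : ℤ) ∣ b.2.2 then (h : ℝ) else 0 := by
    rintro ⟨b₁, b₂, b₃⟩ hb
    obtain ⟨hb1, hb2⟩ := mem_product.1 hb
    obtain ⟨hb2, hb3⟩ := mem_product.1 hb2
    simp only at hb1 hb2 hb3 ⊢
    rw [hB, mem_Icc] at hb3
    have hb3' : b₃ ≠ 0 := by linarith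
    have hg2 : 0 < Int.gcd b₂ b₃ := Int.gcd_pos_of_ne_zero_right b₂ hb3'
    have hg1 : 0 < Int.gcd b₁ (Int.gcd b₂ b₃) :=
      Int.gcd_pos_of_ne_zero_right b₁ (by exact_mod_cast hg2.ne')
    have d1 : ((Int.gcd b₁ (Int.gcd b₂ b₃) : ℕ) : ℤ) ∣ b₁ := Int.gcd_dvd_left _ _
    have d2 : ((Int.gcd b₁ (Int.gcd b₂ b₃) : ℕ) : ℤ) ∣ (Int.gcd b₂ b₃ : ℕ) := Int.gcd_dvd_right _ _
    have d3 : ((Int.gcd b₂ b₃ : ℕ) : ℤ) ∣ b₂ := Int.gcd_dvd_left _ _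
    have d4 : ((Int.gcd b₂ b₃ : ℕ) : ℤ) ∣ b₃ := Int.gcd_dvd_right _ _
    have hgn : Int.gcd b₁ (Int.gcd b₂ b₃) ∈ Icc 1 n := by
      rw [mem_Icc]
      refine ⟨hg1, ?_⟩
      have h2 := Int.le_of_dvd (by linarith) (d2.trans d4)
      have h3 : ((Int.gcd b₁ (Int.gcd b₂ b₃) : ℕ) : ℤ) ≤ (n : ℤ) := by
        have h4 : b₃ ≤ (n : ℤ) := by
          have := hb3.2
          rw [hn] at this
          exact this
        linarith
      exact_mod_cast h3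
    have h2 := single_le_sum (f := fun h : ℕ => if (h : ℤ) ∣ b₁ ∧ (h : ℤ) ∣ b₂ ∧ (h : ℤ) ∣ b₃ then (h : ℝ) else 0)
      (fun h _ => by
        split_ifs
        · positivity
        · exact le_rfl) hgn
    rw [if_pos ⟨d1, d2.trans d3, d2.trans d4⟩] at h2
    exact h2
  refine (sum_le_sum h1).trans ?_
  rw [sum_comm]
  have h3 : ∀ h ∈ Icc 1 n, ∑ b ∈ B ×ˢ (B ×ˢ B),
      (if (h : ℤ) ∣ b.1 ∧ (h : ℤ) ∣ b.2.1 ∧ (h : ℤ) ∣ b.2.2 then (h : ℝ) else 0) ≤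
      216 * N ^ 3 * (1 / (h : ℝ) ^ 2) := by
    intro h hh
    obtain ⟨hh1, hh2⟩ := mem_Icc.1 hh
    have e1 : (B ×ˢ (B ×ˢ B)).filter (fun b => (h : ℤ) ∣ b.1 ∧ (h : ℤ) ∣ b.2.1 ∧ (h : ℤ) ∣ b.2.2) =
        (B.filter (fun b => (h : ℤ) ∣ b)) ×ˢ ((B.filter (fun b => (h : ℤ) ∣ b)) ×ˢ
          (B.filter (fun b => (h : ℤ) ∣ b))) := by
      ext ⟨b₁, b₂, b₃⟩
      simp only [mem_filter, mem_product]
      tauto
    rw [← sum_filter, e1, sum_const, card_product, card_product, nsmul_eq_mul]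
    have h4 : ((B.filter (fun b => (h : ℤ) ∣ b)).card : ℝ) ≤ 6 * N / (h : ℤ) := by
      refine cls6 (by exact_mod_cast hh1) (by rw [hn]; exact_mod_cast hh2) (u := 2 * N + 1) (v := 4 * N)
        (by linarith) (by linarith) (filter_subset _ _) ?_
      intro x hx y hy
      exact dvd_sub (mem_filter.1 hx).2 (mem_filter.1 hy).2
    push_cast at h4 ⊢
    have hh' : (0 : ℝ) < h := by exact_mod_cast hh1
    set c := ((B.filter (fun b => (h : ℤ) ∣ b)).card : ℝ) with hc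
    have hc0 : 0 ≤ c := by positivity
    have h5 : c * (c * c) ≤ (6 * N / h) * ((6 * N / h) * (6 * N / h)) := by
      have h6 : (0 : ℝ) ≤ 6 * N / h := by positivity
      exact mul_le_mul h4 (mul_le_mul h4 h4 hc0 h6) (by positivity) h6
    calc c * (c * c) * h ≤ (6 * N / h) * ((6 * N / h) * (6 * N / h)) * h :=
          mul_le_mul_of_nonneg_right h5 hh'.le
      _ = 216 * N ^ 3 * (1 / (h : ℝ) ^ 2) := by
          field_simp
          norm_num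
  refine (sum_le_sum h3).trans ?_
  rw [← mul_sum]
  have h4 := sum_inv_sq n
  nlinarith [pow_pos hN' 3]

/-- **the energy of the squares** -/
theorem energy {N : ℤ} (hN : 1 ≤ N) {X : Finset ℤ} (hX : ∀ x ∈ X, N < x ∧ x ≤ 2 * N) :
    (((((X ×ˢ (X ×ˢ X)) ×ˢ (X ×ˢ (X ×ˢ X))).filter (fun p : (ℤ × ℤ × ℤ) × (ℤ × ℤ × ℤ) =>
      p.1.1 ^ 2 + p.1.2.1 ^ 2 + p.1.2.2 ^ 2 = p.2.1 ^ 2 + p.2.2.1 ^ 2 + p.2.2.2 ^ 2)).card : ℕ) : ℝ) ≤
      7776 * N ^ 4 := by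
  classical
  have hN' : (0 : ℝ) < N := by exact_mod_cast (show (0 : ℤ) < N by linarith)
  set Q := ((X ×ˢ (X ×ˢ X)) ×ˢ (X ×ˢ (X ×ˢ X))).filter (fun p : (ℤ × ℤ × ℤ) × (ℤ × ℤ × ℤ) =>
      p.1.1 ^ 2 + p.1.2.1 ^ 2 + p.1.2.2 ^ 2 = p.2.1 ^ 2 + p.2.2.1 ^ 2 + p.2.2.2 ^ 2) with hQ
  set B := Icc (2 * N + 1) (4 * N) with hB
  set A := Icc (-N) N with hA
  set W : (ℤ × ℤ × ℤ) → Finset (ℤ × ℤ) := fun b =>
    (A ×ˢ A).filter (fun a : ℤ × ℤ => b.2.2 ∣ a.1 * b.1 + a.2 * b.2.1) with hW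
  set Z := (B ×ˢ (B ×ˢ B)).biUnion (fun b => (W b).image (fun a => (b, a))) with hZ
  have h1 : Q.card ≤ Z.card := by
    refine card_le_card_of_injOn (fun p => ((p.1.1 + p.2.1, p.1.2.1 + p.2.2.1, p.1.2.2 + p.2.2.2),
      (p.1.1 - p.2.1, p.1.2.1 - p.2.2.1))) ?_ ?_
    · rintro ⟨⟨x₁, x₂, x₃⟩, y₁, y₂, y₃⟩ hp
      obtain ⟨hp1, hp2⟩ := mem_filter.1 (mem_coe.1 hp)
      simp only [mem_product] at hp1 hp2
      obtain ⟨⟨k1, k2, k3⟩, k4, k5, k6⟩ := hp1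
      have l1 := hX _ k1
      have l2 := hX _ k2
      have l3 := hX _ k3
      have l4 := hX _ k4
      have l5 := hX _ k5
      have l6 := hX _ k6
      refine mem_coe.2 (mem_biUnion.2 ⟨_, ?_, mem_image.2 ⟨_, ?_, rfl⟩⟩)
      · simp only [mem_product, hB, mem_Icc]
        refine ⟨⟨?_, ?_⟩, ⟨?_, ?_⟩, ?_, ?_⟩ <;> linarith
      · simp only [hW, mem_filter, mem_product, hA, mem_Icc]
        refine ⟨⟨⟨?_, ?_⟩, ?_, ?_⟩, ⟨-(x₃ - y₃), ?_⟩⟩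
        · linarith
        · linarith
        · linarith
        · linarith
        · linear_combination hp2
    · rintro ⟨⟨x₁, x₂, x₃⟩, y₁, y₂, y₃⟩ hp ⟨⟨x₁', x₂', x₃'⟩, y₁', y₂', y₃'⟩ hp' h
      obtain ⟨hp1, hp2⟩ := mem_filter.1 (mem_coe.1 hp)
      obtain ⟨hp1', hp2'⟩ := mem_filter.1 (mem_coe.1 hp')
      simp only [mem_product] at hp1 hp2 hp1' hp2'
      have l3 := hX _ hp1.1.2.2
      have l6 := hX _ hp1.2.2.2
      simp only [Prod.mk.injEq] at h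
      obtain ⟨⟨e1, e2, e3⟩, e4, e5⟩ := h
      have f1 : x₁ = x₁' := by linarith
      have f2 : y₁ = y₁' := by linarith
      have f3 : x₂ = x₂' := by linarith
      have f4 : y₂ = y₂' := by linarith
      subst f1 f2 f3 f4
      have f5 : (x₃ + y₃) * (x₃ - y₃) = (x₃ + y₃) * (x₃' - y₃') := by
        nth_rewrite 2 [e3]
        linear_combination hp2 - hp2'
      have f6 : x₃ - y₃ = x₃' - y₃' := mul_left_cancel₀ (by linarith : x₃ + y₃ ≠ 0) f5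
      have f7 : x₃ = x₃' := by linarith
      have f8 : y₃ = y₃' := by linarith
      subst f7 f8
      rfl
  have h2 : (Z.card : ℝ) ≤ ∑ b ∈ B ×ˢ (B ×ˢ B), ((W b).card : ℝ) := by
    have h3 : Z.card ≤ ∑ b ∈ B ×ˢ (B ×ˢ B), (W b).card :=
      card_biUnion_le.trans (sum_le_sum fun b _ => card_image_le)
    exact_mod_cast h3
  have h3 : ∑ b ∈ B ×ˢ (B ×ˢ B), ((W b).card : ℝ) ≤
      ∑ b ∈ B ×ˢ (B ×ˢ B), 18 * N * ((Int.gcd b.1 (Int.gcd b.2.1 b.2.2) : ℕ) : ℝ) := by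
    refine sum_le_sum fun b hb => ?_
    obtain ⟨-, hb2⟩ := mem_product.1 hb
    obtain ⟨-, hb3⟩ := mem_product.1 hb2
    rw [hB, mem_Icc] at hb3
    refine (count2 hN (b₁ := b.1) (b₂ := b.2.1) (by linarith) hb3.2).trans ?_
    have hb3' : (2 : ℝ) * N ≤ b.2.2 := by
      have : 2 * N ≤ b.2.2 := by linarith [hb3.1]
      exact_mod_cast this
    have hg : (0 : ℝ) ≤ ((Int.gcd b.1 (Int.gcd b.2.1 b.2.2) : ℕ) : ℝ) := by positivity
    rw [div_le_iff₀ (by linarith)]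
    have h4 : (18 * N * ((Int.gcd b.1 (Int.gcd b.2.1 b.2.2) : ℕ) : ℝ)) * (2 * N) ≤
        (18 * N * ((Int.gcd b.1 (Int.gcd b.2.1 b.2.2) : ℕ) : ℝ)) * b.2.2 :=
      mul_le_mul_of_nonneg_left hb3' (by positivity)
    nlinarith
  rw [← mul_sum] at h3
  have h4 := gcd_sum hN
  have h5 : (Q.card : ℝ) ≤ Z.card := by exact_mod_cast h1
  calc (Q.card : ℝ) ≤ 18 * N * (432 * N ^ 3) := by
        refine h5.trans (h2.trans (h3.trans (mul_le_mul_of_nonneg_left h4 (by positivity))))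
    _ = 7776 * N ^ 4 := by ring

end Pool.Agent.N790.FS
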