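import Mathlib
import Pool.Agent.N790.FS.Sq
import Pool.Agent.N790.FS.Cov

/-! All multiples of a small number are reached with a bounded number of elements of free sets. -/

set_option autoImplicit false

namespace Pool.Agent.N790.FS

open Finset
open Pool.Agent.R494.BGen Pool.Agent.R494.CG

/-- sums of three squares -/
def f3 (x : ℤ × ℤ × ℤ) : ℤ := x.1 ^ 2 + x.2.1 ^ 2 + x.2.2 ^ 2

theorem sumset {N : ℤ} (hN : 1 ≤ N) {X : Finset ℤ} (hX : ∀ x ∈ X, N < x ∧ x ≤ 2 * N) :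
    (X.card : ℝ) ^ 6 ≤ ((X ×ˢ (X ×ˢ X)).image f3).card * (7776 * N ^ 4) := by
  classical
  set T := (X ×ˢ (X ×ˢ X)).image f3 with hT
  set Fb : ℤ → Finset (ℤ × ℤ × ℤ) := fun t => (X ×ˢ (X ×ˢ X)).filter (fun x => f3 x = t) with hFb
  have h1 : (X ×ˢ (X ×ˢ X)).card = ∑ t ∈ T, (Fb t).card := card_eq_sum_card_image f3 _
  have h2 : (∑ t ∈ T, ((Fb t).card : ℝ)) ^ 2 ≤ T.card * ∑ t ∈ T, ((Fb t).card : ℝ) ^ 2 :=
    sq_sum_le_card_mul_sum_sq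
  have h3 : (∑ t ∈ T, ((Fb t).card : ℝ) ^ 2) ≤ 7776 * N ^ 4 := by
    refine le_trans ?_ (energy hN hX)
    have h4 : (T.biUnion (fun t => Fb t ×ˢ Fb t)).card = ∑ t ∈ T, (Fb t).card ^ 2 := by
      rw [card_biUnion]
      · refine sum_congr rfl fun t _ => ?_
        rw [card_product, sq]
      · intro t _ t' _ hne
        rw [Function.onFun, Finset.disjoint_left]
        rintro ⟨x, y⟩ hx hx'
        have e1 := (mem_filter.1 (mem_product.1 hx).1).2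
        have e2 := (mem_filter.1 (mem_product.1 hx').1).2
        exact hne (e1.symm.trans e2)
    have h5 : ∑ t ∈ T, ((Fb t).card : ℝ) ^ 2 = ((T.biUnion (fun t => Fb t ×ˢ Fb t)).card : ℝ) := by
      rw [h4]; push_cast; rfl
    rw [h5]
    have h6 : T.biUnion (fun t => Fb t ×ˢ Fb t) ⊆ ((X ×ˢ (X ×ˢ X)) ×ˢ (X ×ˢ (X ×ˢ X))).filter
        (fun p : (ℤ × ℤ × ℤ) × (ℤ × ℤ × ℤ) =>
          p.1.1 ^ 2 + p.1.2.1 ^ 2 + p.1.2.2 ^ 2 = p.2.1 ^ 2 + p.2.2.1 ^ 2 + p.2.2.2 ^ 2) := by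
      rintro ⟨x, y⟩ hxy
      obtain ⟨t, -, h⟩ := mem_biUnion.1 hxy
      obtain ⟨hx, hy⟩ := mem_product.1 h
      obtain ⟨hx1, hx2⟩ := mem_filter.1 hx
      obtain ⟨hy1, hy2⟩ := mem_filter.1 hy
      refine mem_filter.2 ⟨mem_product.2 ⟨hx1, hy1⟩, ?_⟩
      have : f3 x = f3 y := hx2.trans hy2.symm
      exact this
    exact_mod_cast card_le_card h6
  have h4 : (∑ t ∈ T, ((Fb t).card : ℝ)) = (X.card : ℝ) ^ 3 := by
    have : ((∑ t ∈ T, (Fb t).card : ℕ) : ℝ) = (X.card : ℝ) ^ 3 := by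
      rw [← h1, card_product, card_product]
      push_cast
      ring
    rw [← this]
    push_cast
    rfl
  rw [h4] at h2
  calc (X.card : ℝ) ^ 6 = ((X.card : ℝ) ^ 3) ^ 2 := by ring
    _ ≤ _ := h2
    _ ≤ _ := mul_le_mul_of_nonneg_left h3 (by positivity)

/-- a popular sum -/
theorem popular {T : Finset ℤ} {u v : ℤ} (huv : u ≤ v) (hT : ∀ t ∈ T, u ≤ t ∧ t ≤ v) :
    ∃ M : ℤ, (T.card : ℝ) ^ 2 ≤ (2 * (v - u) + 1) * ((T.filter (fun t => M - t ∈ T)).card : ℝ) := by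
  classical
  by_contra hcon
  push Not at hcon
  set Fb : ℤ → Finset (ℤ × ℤ) := fun M => (T ×ˢ T).filter (fun x => x.1 + x.2 = M) with hFb
  have h1 : (T ×ˢ T).card = ∑ M ∈ Icc (2 * u) (2 * v), (Fb M).card := by
    refine card_eq_sum_card_fiberwise ?_
    rintro ⟨a, b⟩ hab
    obtain ⟨ha, hb⟩ := mem_product.1 (mem_coe.1 hab)
    have := hT a ha
    have := hT b hb
    rw [mem_coe, mem_Icc]
    constructor <;> linarith
  have h2 : ∀ M, (Fb M).card = (T.filter (fun t => M - t ∈ T)).card := by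
    intro M
    refine card_bij (fun x _ => x.1) ?_ ?_ ?_
    · rintro ⟨a, b⟩ hab
      obtain ⟨hab1, hab2⟩ := mem_filter.1 hab
      obtain ⟨ha, hb⟩ := mem_product.1 hab1
      simp only at ha hb hab2 ⊢
      refine mem_filter.2 ⟨ha, ?_⟩
      rw [← hab2]
      simpa using hb
    · rintro ⟨a, b⟩ hab ⟨a', b'⟩ hab' h
      have e1 := (mem_filter.1 hab).2
      have e2 := (mem_filter.1 hab').2
      simp only at e1 e2 h
      simp only [Prod.mk.injEq]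
      exact ⟨h, by linarith⟩
    · intro t ht
      obtain ⟨ht1, ht2⟩ := mem_filter.1 ht
      exact ⟨(t, M - t), mem_filter.2 ⟨mem_product.2 ⟨ht1, ht2⟩, by ring⟩, rfl⟩
  have hc : ((Icc (2 * u) (2 * v)).card : ℝ) = 2 * (v - u) + 1 := by
    rw [Int.card_Icc]
    have : ((2 * v + 1 - 2 * u).toNat : ℤ) = 2 * v + 1 - 2 * u := Int.toNat_of_nonneg (by linarith)
    have h3 : ((2 * v + 1 - 2 * u).toNat : ℝ) = ((2 * v + 1 - 2 * u : ℤ) : ℝ) := by exact_mod_cast this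
    rw [h3]
    push_cast
    ring
  have hpos : (0 : ℝ) < 2 * (v - u) + 1 := by
    have : (u : ℝ) ≤ v := by exact_mod_cast huv
    linarith
  have h3 : ∑ M ∈ Icc (2 * u) (2 * v), (2 * ((v : ℝ) - u) + 1) * ((Fb M).card : ℝ) <
      ∑ M ∈ Icc (2 * u) (2 * v), (T.card : ℝ) ^ 2 := by
    refine sum_lt_sum_of_nonempty ⟨2 * u, mem_Icc.2 ⟨le_rfl, by linarith⟩⟩ fun M _ => ?_
    rw [h2 M]
    exact hcon M
  rw [← mul_sum, sum_const, nsmul_eq_mul, hc] at h3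
  have h4 : (∑ M ∈ Icc (2 * u) (2 * v), ((Fb M).card : ℝ)) = (T.card : ℝ) ^ 2 := by
    have : ((∑ M ∈ Icc (2 * u) (2 * v), (Fb M).card : ℕ) : ℝ) = (T.card : ℝ) ^ 2 := by
      rw [← h1, card_product]
      push_cast
      ring
    rw [← this]
    push_cast
    rfl
  rw [h4] at h3
  exact lt_irrefl _ h3

/-- squares miss a residue class -/
theorem sq_adm {p : ℕ} (hp : p.Prime) (hp2 : p ≠ 2) : ∃ c : ℤ, ∀ x : ℤ, ¬ (p : ℤ) ∣ x ^ 2 - c := by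
  have : Fact p.Prime := ⟨hp⟩
  obtain ⟨a, ha⟩ := FiniteField.exists_nonsquare (F := ZMod p) (by rwa [ZMod.ringChar_zmod_n])
  refine ⟨(a.val : ℤ), fun x hx => ha ?_⟩
  have h1 := (ZMod.intCast_zmod_eq_zero_iff_dvd _ p).2 hx
  push_cast at h1
  rw [ZMod.natCast_zmod_val] at h1
  exact ⟨(x : ZMod p), by rw [← sq]; linear_combination (-1) * h1⟩

/-- sums of three elements of a free set -/
theorem Reach.sum3 {q : ℕ} {r : ℤ} {S : Set ℤ} (hS : Free q r 1 S) {a b c : ℤ} (ha : a ∈ S) (hb : b ∈ S)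
    (hc : c ∈ S) : Reach q r 3 {x | ∃ a' ∈ S, ∃ b' ∈ S, ∃ c' ∈ S, x = a' + b' + c' - (a + b + c)} := by
  refine (((Reach.one hS ha).add (Reach.one hS hb)).add (Reach.one hS hc)).mono ?_
  rintro x ⟨a', ha', b', hb', c', hc', rfl⟩
  exact ⟨a' - a + (b' - b), ⟨a' - a, ⟨a', ha', rfl⟩, b' - b, ⟨b', hb', rfl⟩, rfl⟩, c' - c, ⟨c', hc', rfl⟩,
    by ring⟩

/-- **multiples of a small number** -/
theorem dense {K₀ : ℕ} (hK₀ : K₀ = 190 * 31850496 ^ 2) (q : ℕ) (r : ℤ) (hq : 1 ≤ q) (hq2 : 2 ∣ q)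
    (hqr : IsCoprime r (q : ℤ)) (R : ℕ) :
    ∃ E : ℤ, 1 ≤ E ∧ E ≤ K₀ ∧ Reach q r (24 * K₀) {x | |x| ≤ R ∧ E ∣ x} := by
  classical
  obtain ⟨n, hn⟩ : ∃ n : ℕ, n = 2 * (R + K₀) + 2 := ⟨_, rfl⟩
  set N : ℤ := (n : ℤ) with hN
  have hn1 : 1 ≤ n := by omega
  have hN1 : 1 ≤ N := by rw [hN]; exact_mod_cast hn1
  obtain ⟨I, hI, hF⟩ := free_sub q r 1 hq hqr one_ne_zero n (n / 4) hn1 (Nat.mul_div_le n 4)
    (fun a => (N + 1 + a) ^ 2) (by
      intro p hp _ hpq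
      have hp2 : p ≠ 2 := by
        rintro rfl
        exact hpq (by exact_mod_cast hq2)
      obtain ⟨c, hc⟩ := sq_adm hp hp2
      exact ⟨c, fun a => hc _⟩)
  set S : Set ℤ := {x | ∃ a ∈ I, x = (N + 1 + (a : ℕ)) ^ 2} with hS
  set X : Finset ℤ := I.image (fun a : Fin n => N + 1 + ((a : ℕ) : ℤ)) with hX
  have hXc : X.card = n / 4 + 1 := by
    rw [← hI, hX]
    refine card_image_of_injective _ fun a b h => ?_
    simp only [add_right_inj] at h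
    exact Fin.ext (by exact_mod_cast h)
  have hXN : ∀ x ∈ X, N < x ∧ x ≤ 2 * N := by
    intro x hx
    obtain ⟨a, -, rfl⟩ := mem_image.1 hx
    have h1 : ((a : ℕ) : ℤ) < n := by exact_mod_cast a.2
    have h2 : (0 : ℤ) ≤ ((a : ℕ) : ℤ) := by positivity
    constructor <;> linarith
  have hXS : ∀ x ∈ X, x ^ 2 ∈ S := by
    intro x hx
    obtain ⟨a, ha, rfl⟩ := mem_image.1 hx
    exact ⟨a, ha, rfl⟩
  set T := (X ×ˢ (X ×ˢ X)).image f3 with hT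
  have hTab : ∀ t ∈ T, 3 * N ^ 2 ≤ t ∧ t ≤ 12 * N ^ 2 := by
    intro t ht
    obtain ⟨⟨x, y, z⟩, hxyz, rfl⟩ := mem_image.1 ht
    simp only [mem_product] at hxyz
    have h1 := hXN _ hxyz.1
    have h2 := hXN _ hxyz.2.1
    have h3 := hXN _ hxyz.2.2
    unfold f3
    simp only
    constructor
    · nlinarith
    · nlinarith
  have hTS : ∀ t ∈ T, ∃ a ∈ S, ∃ b ∈ S, ∃ c ∈ S, t = a + b + c := by
    intro t ht
    obtain ⟨⟨x, y, z⟩, hxyz, rfl⟩ := mem_image.1 ht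
    simp only [mem_product] at hxyz
    exact ⟨_, hXS _ hxyz.1, _, hXS _ hxyz.2.1, _, hXS _ hxyz.2.2, rfl⟩
  obtain ⟨M, hM⟩ := popular (T := T) (u := 3 * N ^ 2) (v := 12 * N ^ 2) (by nlinarith) hTab
  set T₁ := T.filter (fun t => M - t ∈ T) with hT₁
  -- sizes
  have hNr : (1 : ℝ) ≤ N := by exact_mod_cast hN1
  have hN0 : (0 : ℝ) < N := by linarith
  have hXr : (N : ℝ) / 4 ≤ X.card := by
    rw [hXc]
    have h1 : n < 4 * (n / 4 + 1) := by omega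
    have h2 : (n : ℝ) < 4 * ((n / 4 + 1 : ℕ) : ℝ) := by exact_mod_cast h1
    have h3 : (N : ℝ) = n := by rw [hN]; push_cast; rfl
    rw [h3]
    linarith
  have hTr : (N : ℝ) ^ 2 / 31850496 ≤ T.card := by
    have h1 := sumset hN1 hXN
    have h2 : ((N : ℝ) / 4) ^ 6 ≤ (X.card : ℝ) ^ 6 := pow_le_pow_left₀ (by positivity) hXr 6
    have h3 : ((N : ℝ) / 4) ^ 6 ≤ T.card * (7776 * N ^ 4) := h2.trans h1
    have h4 : ((N : ℝ) / 4) ^ 6 = (N : ℝ) ^ 2 / 31850496 * (7776 * N ^ 4) := by ring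
    rw [h4] at h3
    exact le_of_mul_le_mul_right h3 (by positivity)
  have hT₁r : (N : ℝ) ^ 2 / (19 * 31850496 ^ 2) ≤ T₁.card := by
    have h1 : ((N : ℝ) ^ 2 / 31850496) ^ 2 ≤ (T.card : ℝ) ^ 2 := pow_le_pow_left₀ (by positivity) hTr 2
    have h2 : (2 * (((12 * N ^ 2 : ℤ) : ℝ) - ((3 * N ^ 2 : ℤ) : ℝ)) + 1) ≤ 19 * (N : ℝ) ^ 2 := by
      push_cast
      nlinarith
    have h3 : ((N : ℝ) ^ 2 / 31850496) ^ 2 ≤ 19 * (N : ℝ) ^ 2 * T₁.card :=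
      h1.trans (hM.trans (mul_le_mul_of_nonneg_right h2 (by positivity)))
    have h4 : ((N : ℝ) ^ 2 / 31850496) ^ 2 = 19 * (N : ℝ) ^ 2 * ((N : ℝ) ^ 2 / (19 * 31850496 ^ 2)) := by
      field_simp
    rw [h4] at h3
    exact le_of_mul_le_mul_left h3 (by positivity)
  have hT₁ne : T₁.Nonempty := by
    rw [← card_pos]
    have : (0 : ℝ) < T₁.card := lt_of_lt_of_le (by positivity) hT₁r
    exact_mod_cast this
  have hbound : (12 * N ^ 2 - 3 * N ^ 2 + 1 + 2 * ((R + K₀ : ℕ) : ℤ)) < ((K₀ : ℤ) + 1) * T₁.card := by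
    have h1 : (12 * N ^ 2 - 3 * N ^ 2 + 1 + 2 * ((R + K₀ : ℕ) : ℤ)) ≤ 10 * N ^ 2 := by
      have h2 : (2 * ((R + K₀ : ℕ) : ℤ) + 2) = N := by rw [hN, hn]; push_cast; ring
      nlinarith
    have h2 : (10 : ℝ) * N ^ 2 < ((K₀ : ℝ) + 1) * T₁.card := by
      have h3 : (K₀ : ℝ) = 190 * 31850496 ^ 2 := by rw [hK₀]; push_cast; ring
      have h4 : ((K₀ : ℝ) + 1) * ((N : ℝ) ^ 2 / (19 * 31850496 ^ 2)) ≤ ((K₀ : ℝ) + 1) * T₁.card :=
        mul_le_mul_of_nonneg_left hT₁r (by positivity)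
      have h5 : (10 : ℝ) * N ^ 2 < ((K₀ : ℝ) + 1) * ((N : ℝ) ^ 2 / (19 * 31850496 ^ 2)) := by
        rw [h3, ← mul_div_assoc, lt_div_iff₀ (by positivity)]
        nlinarith [pow_pos hN0 2]
      linarith
    have h3 : (10 * N ^ 2 : ℤ) < ((K₀ : ℤ) + 1) * T₁.card := by exact_mod_cast h2
    linarith
  obtain ⟨E, hE1, hEK, hE⟩ := cover hT₁ne (α := 3 * N ^ 2) (β := 12 * N ^ 2) (R := ((R + K₀ : ℕ) : ℤ)) (K := K₀)
    (fun t ht => hTab t (mem_filter.1 ht).1) (by push_cast; linarith [show (0 : ℤ) ≤ R by positivity]) hbound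
  refine ⟨E, hE1, hEK, ?_⟩
  -- the base points
  obtain ⟨t₀, ht₀⟩ := hT₁ne
  obtain ⟨ht₀T, ht₀M⟩ := mem_filter.1 ht₀
  obtain ⟨a, ha, b, hb, c, hc, habc⟩ := hTS _ ht₀T
  obtain ⟨a', ha', b', hb', c', hc', habc'⟩ := hTS _ ht₀M
  have h6 : Reach q r 6 (Df T₁) := by
    refine ((Reach.sum3 hF ha hb hc).add (Reach.sum3 hF ha' hb' hc')).mono ?_
    rintro x ⟨t, ht, t', ht', rfl⟩
    obtain ⟨ht1, -⟩ := mem_filter.1 ht
    obtain ⟨-, ht2⟩ := mem_filter.1 ht'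
    obtain ⟨u, hu, v, hv, w, hw, huvw⟩ := hTS _ ht1
    obtain ⟨u', hu', v', hv', w', hw', huvw'⟩ := hTS _ ht2
    refine ⟨_, ⟨u, hu, v, hv, w, hw, rfl⟩, _, ⟨u', hu', v', hv', w', hw', rfl⟩, ?_⟩
    linarith
  have h7 : Reach q r (24 * K₀) (mult (4 * K₀) (Df T₁)) := by
    have := h6.mult (4 * K₀)
    have e : 6 * (4 * K₀) = 24 * K₀ := by ring
    rwa [e] at this
  refine h7.mono ?_
  rintro x ⟨hx, n', rfl⟩
  refine hE n' ?_
  push_cast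
  have : (0 : ℤ) ≤ (K₀ : ℤ) := by positivity
  linarith

end Pool.Agent.N790.FS
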