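import Mathlib
import Pool.Agent.N790.FS.Dense

/-! Bounded generation by good vectors, with an absolute bound. -/

set_option autoImplicit false

namespace Pool.Agent.N790.FS

open Finset
open Pool.Agent.R494.BGen Pool.Agent.R494.CG

/-- one row -/
theorem row {q : ℕ} {r lam : ℤ} (hq : 1 ≤ q) {k : ℕ} (hlam : lam ≠ 0)
    {s : Fin (k + 1) → ℤ} {S : Set ℤ} (hS : Free q r lam S) (hs : ∀ i, s i ∈ S) {Be : ℤ}
    (hBe : ∀ i i', |s i - s i'| < Be) {J : Finset ℕ} (hJc : J.card = k + 1) (hJB : ∀ j ∈ J, Be ≤ j)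
    {Λ : Finset (ℤ × ℤ)} (hΛ : ∀ i, (lam, s i) ∈ Λ)
    (hJ : ∀ I : List (ℕ × (ℤ × ℤ)), I.Pairwise (fun x y => x.1 < y.1) → (∀ x ∈ I, x.1 ∈ J ∧ x.2 ∈ Λ) →
      (Pat q r (∅ ∪ (I.map pt).toFinset) ↔ L (Pat q r) (I.map Prod.snd) ∅)) :
    (fun i : Fin k => (lam * fc (J.orderEmbOfFin hJc i.succ) + s i.succ) -
      (lam * fc (J.orderEmbOfFin hJc 0) + s 0)) ∈ GoodSet q r k := by
  classical
  set emb : Fin (k + 1) ↪o ℕ := J.orderEmbOfFin hJc with hemb
  have hembJ : ∀ t, emb t ∈ J := fun t => Finset.orderEmbOfFin_mem J hJc t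
  set Il : List (ℕ × (ℤ × ℤ)) := List.ofFn (fun i : Fin (k + 1) => (emb i, (lam, s i))) with hIl
  have h1 := hJ Il (by
    rw [hIl, List.pairwise_ofFn]
    intro l l' hll
    exact emb.strictMono hll) (by
    intro y hy
    rw [hIl, List.mem_ofFn] at hy
    obtain ⟨l, rfl⟩ := hy
    exact ⟨hembJ _, hΛ l⟩)
  have h2 : Il.map Prod.snd = (List.ofFn s).map (fun a => (lam, a)) := by
    rw [hIl, List.map_ofFn, List.map_ofFn]
    rfl
  rw [h2] at h1
  have h3 := h1.2 (hS (List.ofFn s) (by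
    intro a ha
    rw [List.mem_ofFn] at ha
    obtain ⟨i, rfl⟩ := ha
    exact hs i))
  refine pat_good hq h3 (fun i => lam * fc (emb i) + s i) ?_ ?_
  · intro i i' h
    simp only at h
    rcases lt_trichotomy i i' with h4 | h4 | h4
    · exact absurd h (pt_ne hlam (emb.strictMono h4) (hJB _ (hembJ i)) (hBe _ _))
    · exact h4
    · exact absurd h.symm (pt_ne hlam (emb.strictMono h4) (hJB _ (hembJ i')) (hBe _ _))
  · intro i
    rw [empty_union, List.mem_toFinset, List.mem_map]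
    refine ⟨(emb i, (lam, s i)), ?_, rfl⟩
    rw [hIl, List.mem_ofFn]
    exact ⟨i, rfl⟩

/-- **assembly** -/
theorem asm {q : ℕ} {r : ℤ} (hq : 1 ≤ q) (hqr : IsCoprime r (q : ℤ)) {ι : Type} [Fintype ι] [Nonempty ι]
    {k : ℕ} (s : ι → Fin (k + 1) → ℤ) (S : ι → Set ℤ) (hS : ∀ ρ, Free q r 1 (S ρ)) (hs : ∀ ρ i, s ρ i ∈ S ρ)
    {m : ℕ} (hm : m = Fintype.card ι + 1) :
    ∃ v : Fin m → Fin k → ℤ, (∀ j, v j ∈ GoodSet q r k) ∧
      ∑ j, v j = fun l => ∑ ρ, (s ρ l.succ - s ρ 0) := by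
  classical
  set n : ℤ := (Fintype.card ι : ℤ) with hn
  have hn0 : n ≠ 0 := by
    rw [hn]
    exact_mod_cast Fintype.card_ne_zero
  set Λ : Finset (ℤ × ℤ) := insert (-n, 0) (univ.image (fun x : ι × Fin (k + 1) => ((1 : ℤ), s x.1 x.2))) with hΛ
  obtain ⟨Be, hBe⟩ : ∃ Be : ℕ, ∀ ρ i i', |s ρ i - s ρ i'| < (Be : ℤ) := by
    refine ⟨univ.sup (fun x : ι × Fin (k + 1) × Fin (k + 1) => (s x.1 x.2.1 - s x.1 x.2.2).natAbs) + 1,
      fun ρ i i' => ?_⟩
    have h1 := Finset.le_sup (f := fun x : ι × Fin (k + 1) × Fin (k + 1) =>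
      (s x.1 x.2.1 - s x.1 x.2.2).natAbs) (mem_univ (ρ, i, i'))
    simp only at h1
    rw [Int.abs_eq_natAbs]
    exact_mod_cast Nat.lt_succ_of_le h1
  obtain ⟨J, hJc, hJ0, hJ⟩ := real (Pat q r) Λ (k + 1) {∅} (Be + 1)
  have hJ' := hJ ∅ (mem_singleton_self _)
  have hJB : ∀ j ∈ J, (Be : ℤ) ≤ j := fun j hj => by
    have := hJ0 j hj
    exact_mod_cast (by omega : Be ≤ j)
  have hJB1 : ∀ j ∈ J, (1 : ℤ) ≤ j := fun j hj => by
    have := hJ0 j hj
    exact_mod_cast (by omega : 1 ≤ j)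
  have h1 : ∀ ρ, (fun i : Fin k => ((1 : ℤ) * fc (J.orderEmbOfFin hJc i.succ) + s ρ i.succ) -
      (1 * fc (J.orderEmbOfFin hJc 0) + s ρ 0)) ∈ GoodSet q r k := fun ρ =>
    row hq one_ne_zero (hS ρ) (hs ρ) (hBe ρ) hJc hJB
      (fun i => mem_insert_of_mem (mem_image.2 ⟨(ρ, i), mem_univ _, rfl⟩)) hJ'
  have h2 : (fun i : Fin k => (-n * fc (J.orderEmbOfFin hJc i.succ) + 0) -
      (-n * fc (J.orderEmbOfFin hJc 0) + 0)) ∈ GoodSet q r k :=
    row hq (neg_ne_zero.2 hn0) (free_zero q r (-n) hq hqr (neg_ne_zero.2 hn0)) (s := fun _ => 0)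
      (fun _ => rfl) (Be := 1) (fun _ _ => by norm_num) hJc hJB1 (fun i => mem_insert_self _ _) hJ'
  -- the rows
  set V : Option ι → Fin k → ℤ := fun o => o.elim
    (fun i : Fin k => (-n * fc (J.orderEmbOfFin hJc i.succ) + 0) -
      (-n * fc (J.orderEmbOfFin hJc 0) + 0))
    (fun ρ i => ((1 : ℤ) * fc (J.orderEmbOfFin hJc i.succ) + s ρ i.succ) -
      (1 * fc (J.orderEmbOfFin hJc 0) + s ρ 0)) with hV
  have hcard : Fintype.card (Fin m) = Fintype.card (Option ι) := by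
    rw [Fintype.card_fin, Fintype.card_option, hm]
  set e : Fin m ≃ Option ι := Fintype.equivOfCardEq hcard with he
  refine ⟨fun j => V (e j), ?_, ?_⟩
  · intro j
    rcases h : e j with _ | ρ
    · simp only [hV, h]
      exact h2
    · simp only [hV, h]
      exact h1 ρ
  · have e1 : ∑ j, V (e j) = ∑ o, V o := Equiv.sum_comp e V
    rw [e1, Fintype.sum_option]
    ext l
    simp only [hV, Option.elim, Pi.add_apply, Finset.sum_apply]
    have e2 : ∀ ρ : ι, ((1 : ℤ) * fc (J.orderEmbOfFin hJc l.succ) + s ρ l.succ) -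
        (1 * fc (J.orderEmbOfFin hJc 0) + s ρ 0) =
        (fc (J.orderEmbOfFin hJc l.succ) - fc (J.orderEmbOfFin hJc 0)) + (s ρ l.succ - s ρ 0) := by
      intro ρ; ring
    rw [sum_congr rfl (fun ρ _ => e2 ρ), sum_add_distrib, sum_const, card_univ, nsmul_eq_mul]
    rw [hn]
    ring

/-- additional rows -/
theorem asm_le {q : ℕ} {r : ℤ} (hq : 1 ≤ q) (hqr : IsCoprime r (q : ℤ)) {ι : Type} [Fintype ι]
    {k : ℕ} (s : ι → Fin (k + 1) → ℤ) (S : ι → Set ℤ) (hS : ∀ ρ, Free q r 1 (S ρ)) (hs : ∀ ρ i, s ρ i ∈ S ρ)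
    {m : ℕ} (hm : Fintype.card ι + 1 ≤ m) (hm2 : 2 ≤ m) :
    ∃ v : Fin m → Fin k → ℤ, (∀ j, v j ∈ GoodSet q r k) ∧
      ∑ j, v j = fun l => ∑ ρ, (s ρ l.succ - s ρ 0) := by
  classical
  obtain ⟨t, ht⟩ : ∃ t, m = (Fintype.card ι + t) + 1 := ⟨m - 1 - Fintype.card ι, by omega⟩
  have hc : Fintype.card (ι ⊕ Fin t) = Fintype.card ι + t := by
    rw [Fintype.card_sum, Fintype.card_fin]
  have : Nonempty (ι ⊕ Fin t) := by
    rw [← Fintype.card_pos_iff, hc]
    omega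
  obtain ⟨v, hv, hsum⟩ := asm hq hqr (ι := ι ⊕ Fin t) (k := k) (Sum.elim s (fun _ _ => 0))
    (Sum.elim S (fun _ => {0})) (by
      rintro (ρ | ρ)
      · exact hS ρ
      · exact free_zero q r 1 hq hqr one_ne_zero) (by
      rintro (ρ | ρ) i
      · exact hs ρ i
      · rfl) (m := m) (by rw [hc]; exact ht)
  refine ⟨v, hv, ?_⟩
  rw [hsum]
  ext l
  rw [Fintype.sum_sum_type]
  simp

/-- vectors with entries in a set which is reached -/
theorem of_reach {q : ℕ} {r : ℤ} (hq : 1 ≤ q) (hqr : IsCoprime r (q : ℤ)) {m₀ m k : ℕ} {W : Set ℤ}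
    (hW : Reach q r m₀ W) (hm : m₀ + 1 ≤ m) (hm2 : 2 ≤ m) {w : Fin k → ℤ} (hw : ∀ l, w l ∈ W) :
    ∃ v : Fin m → Fin k → ℤ, (∀ j, v j ∈ GoodSet q r k) ∧ ∑ j, v j = w := by
  obtain ⟨S, s₀, h1, h2, h3⟩ := hW
  choose s hs hsum using fun l => h3 (w l) (hw l)
  obtain ⟨v, hv, hv2⟩ := asm_le hq hqr (ι := Fin m₀) (k := k)
    (fun ρ => Fin.cons (s₀ ρ) (fun l => s l ρ)) S h1 (by
      intro ρ i
      refine Fin.cases ?_ (fun l => ?_) i
      · rw [Fin.cons_zero]; exact h2 ρ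
      · rw [Fin.cons_succ]; exact hs l ρ) (m := m) (by rw [Fintype.card_fin]; exact hm) hm2
  refine ⟨v, hv, ?_⟩
  rw [hv2]
  ext l
  simp only [Fin.cons_succ, Fin.cons_zero]
  exact hsum l

/-- multiples of `E` by at most `j` steps -/
theorem mem_mult {E : ℤ} : ∀ {j i : ℕ}, i ≤ j → E * i ∈ mult j ({0, E} : Set ℤ) := by
  intro j
  induction j with
  | zero =>
    intro i hi
    have : i = 0 := by omega
    subst this
    simp [mult]
  | succ j ih =>
    intro i hi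
    rcases Nat.eq_zero_or_pos i with rfl | h
    · exact ⟨0, by simpa using ih (Nat.zero_le j), 0, by simp, by simp⟩
    · obtain ⟨i', rfl⟩ : ∃ i', i = i' + 1 := ⟨i - 1, by omega⟩
      exact ⟨E * i', ih (by omega), E, by simp, by push_cast; ring⟩

/-- **the main theorem** -/
theorem main (q : ℕ) (r : ℤ) (hq : 1 ≤ q) (hq2 : 2 ∣ q) (hqr : IsCoprime r (q : ℤ)) :
    ∃ E : ℤ, (E = 2 ∨ E = 3) ∧ ∀ k m : ℕ, 1 ≤ k → min (3 * k + 1) (10 ^ 19) ≤ m → ∀ w : Fin k → ℤ,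
      ∃ v : Fin m → Fin k → ℤ, (∀ j, v j ∈ GoodSet q r k) ∧ ∑ j, v j = E • w := by
  classical
  obtain ⟨E, hE, hE3⟩ := three_P q r hq hq2 hqr
  refine ⟨E, hE, fun k m hk hm w => ?_⟩
  rcases min_le_iff.1 hm with h | h
  · -- `3 k + 1` rows
    choose p hp hsum using fun l => hE3 (w l)
    choose t ht using fun l i => hp l i
    obtain ⟨v, hv, hv2⟩ := asm_le hq hqr (ι := Fin k × Fin 3) (k := k)
      (fun ρ j => t ρ.1 ρ.2 + if j = ρ.1.succ then p ρ.1 ρ.2 else 0)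
      (fun ρ => {t ρ.1 ρ.2, t ρ.1 ρ.2 + p ρ.1 ρ.2}) (fun ρ => ht ρ.1 ρ.2) (by
        intro ρ i
        split_ifs
        · simp
        · simp) (m := m) (by
        rw [Fintype.card_prod, Fintype.card_fin, Fintype.card_fin]
        omega) (by omega)
    refine ⟨v, hv, ?_⟩
    rw [hv2]
    ext l
    rw [Fintype.sum_prod_type]
    have h1 : ∀ l' : Fin k, (∑ i : Fin 3, ((t l' i + if l.succ = l'.succ then p l' i else 0) -
        (t l' i + if (0 : Fin (k + 1)) = l'.succ then p l' i else 0))) =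
        if l' = l then ∑ i, p l' i else 0 := by
      intro l'
      have h0 : (0 : Fin (k + 1)) ≠ l'.succ := (Fin.succ_ne_zero l').symm
      by_cases h2 : l' = l
      · subst h2
        rw [if_pos rfl]
        refine sum_congr rfl fun i _ => ?_
        rw [if_pos rfl, if_neg h0]
        ring
      · rw [if_neg h2]
        refine sum_eq_zero fun i _ => ?_
        have h3 : l.succ ≠ l'.succ := fun h => h2 (Fin.succ_injective _ h).symm
        rw [if_neg h3, if_neg h0]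
        ring
    simp only
    rw [sum_congr rfl (fun l' _ => h1 l'), sum_ite_eq' univ l, if_pos (mem_univ l), hsum l]
    rfl
  · -- a bounded number of rows
    obtain ⟨K, hK⟩ : ∃ K : ℕ, K = 190 * 31850496 ^ 2 := ⟨_, rfl⟩
    have hKm : 27 * K + 2 ≤ m := by
      refine le_trans ?_ h
      rw [hK]
      norm_num
    obtain ⟨R, hR⟩ : ∃ R : ℕ, ∀ l, |E * w l| ≤ (R : ℤ) := by
      refine ⟨univ.sup (fun l => (E * w l).natAbs), fun l => ?_⟩
      rw [Int.abs_eq_natAbs]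
      exact_mod_cast Finset.le_sup (f := fun l => (E * w l).natAbs) (mem_univ l)
    obtain ⟨E₀, hE₀, hE₀K, hre⟩ := dense hK q r hq hq2 hqr (R + 3 * K)
    obtain ⟨p, hp, hsum⟩ := hE3 1
    have h3 := (Reach.three hp).mult K
    rw [hsum, mul_one] at h3
    have h4 := hre.add h3
    have e1 : 24 * K + 3 * K = 27 * K := by ring
    rw [e1] at h4
    refine of_reach hq hqr (W := {x | ∃ l, x = E * w l}) (h4.mono ?_) (by omega) (by omega) (w := E • w)
      (fun l => ⟨l, rfl⟩)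
    rintro _ ⟨l, rfl⟩
    have hE4 : 0 ≤ E ∧ E ≤ 3 := by rcases hE with rfl | rfl <;> norm_num
    have hρ0 := Int.emod_nonneg (w l) (show E₀ ≠ 0 by linarith)
    have hρ1 := Int.emod_lt_of_pos (w l) (show 0 < E₀ by linarith)
    have hdm := Int.emod_add_mul_ediv (w l) E₀
    obtain ⟨ρ, hρ⟩ := Int.eq_ofNat_of_zero_le hρ0
    refine ⟨E * (E₀ * (w l / E₀)), ⟨?_, ?_⟩, E * ρ, mem_mult ?_, ?_⟩
    · have h5 : E * (E₀ * (w l / E₀)) = E * w l - E * ρ := by
        rw [← hρ]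
        linear_combination E * hdm
      rw [h5]
      have h6 := hR l
      have h7 : |E * (ρ : ℤ)| ≤ 3 * K := by
        rw [abs_of_nonneg (mul_nonneg hE4.1 (by positivity))]
        have h8 : (ρ : ℤ) ≤ K := by rw [← hρ]; linarith
        have h9 : (0 : ℤ) ≤ ρ := by positivity
        nlinarith [hE4.1, hE4.2]
      calc |E * w l - E * ρ| ≤ |E * w l| + |E * ρ| := abs_sub _ _
        _ ≤ _ := by push_cast; linarith
    · exact ⟨E * (w l / E₀), by ring⟩
    · have h8 : (ρ : ℤ) ≤ K := by rw [← hρ]; linarith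
      exact_mod_cast h8
    · rw [← hρ]
      linear_combination (-E) * hdm

end Pool.Agent.N790.FS
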